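import Pool.Agent.Lib.MP_33899d_ntN.Defs

/-!
# The majorant of degree eight

`co j / coL`, `j = 0, ..., 8`, are the coefficients of a polynomial `maj` with
`log t ≤ maj t` on `(0, 9]`; `FZ u v` is `coL` times the coefficient of `x ^ u y ^ v` in
`maj (|1 + x + y| ^ 2)`.
-/

namespace Pool.Agent.Lib.MP_33899d_ntN

/-- Common denominator of the coefficients. -/
def coL : ℤ := 54460607040000

/-- Numerators of the coefficients. -/
def co (j : ℕ) : ℤ :=
  [-116529360883488, 227086519779000, -178011407883750, 92767278961000, -30190114686375,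
    6055041052200, -723812530000, 47106576000, -1280664000].getD j 0

/-- The majorant polynomial. -/
noncomputable def maj (t : ℝ) : ℝ := (∑ j ∈ Finset.range 9, (co j : ℝ) * t ^ j) / coL

/-- Table of binomial coefficients up to row eight. -/
def ch (j i : ℕ) : ℕ :=
  ([[1], [1, 1], [1, 2, 1], [1, 3, 3, 1], [1, 4, 6, 4, 1], [1, 5, 10, 10, 5, 1],
    [1, 6, 15, 20, 15, 6, 1], [1, 7, 21, 35, 35, 21, 7, 1],
    [1, 8, 28, 56, 70, 56, 28, 8, 1]].getD j []).getD i 0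

/-- Coefficient of `x ^ i y ^ l` in `(1 + x + y) ^ j`, `j ≤ 8`. -/
def cc (j i l : ℕ) : ℤ := (ch j i * ch (j - i) l : ℕ)

/-- Finite sums, computable in the kernel. -/
def sumTo (f : ℕ → ℤ) : ℕ → ℤ
  | 0 => 0
  | (n + 1) => sumTo f n + f n

/-- The weight of a pair of monomials. -/
def GG (i l i' l' : ℕ) : ℤ := sumTo (fun j => co j * (cc j i l * cc j i' l')) 9

/-- The term of `FZ u v` belonging to the monomial `x ^ i y ^ l`. -/
def FT (u v : ℤ) (i l : ℕ) : ℤ :=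
  if 0 ≤ (i : ℤ) - u ∧ 0 ≤ (l : ℤ) - v ∧ (i : ℤ) - u ≤ 8 ∧ (l : ℤ) - v ≤ 8 then
    GG i l ((i : ℤ) - u).toNat ((l : ℤ) - v).toNat else 0

/-- `coL` times the coefficient of `x ^ u y ^ v` in `maj (|1 + x + y| ^ 2)`. -/
def FZ (u v : ℤ) : ℤ := sumTo (fun i => sumTo (fun l => FT u v i l) 9) 9

/-- The type of a relation: the absolute values of `u`, `v`, `u + v`. -/
def Typ (u v : ℤ) (p q r : ℕ) : Prop :=
  (u.natAbs = p ∧ v.natAbs = q ∧ (u + v).natAbs = r) ∨
  (u.natAbs = p ∧ v.natAbs = r ∧ (u + v).natAbs = q) ∨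
  (u.natAbs = q ∧ v.natAbs = p ∧ (u + v).natAbs = r) ∨
  (u.natAbs = q ∧ v.natAbs = r ∧ (u + v).natAbs = p) ∨
  (u.natAbs = r ∧ v.natAbs = p ∧ (u + v).natAbs = q) ∨
  (u.natAbs = r ∧ v.natAbs = q ∧ (u + v).natAbs = p)

instance (u v : ℤ) (p q r : ℕ) : Decidable (Typ u v p q r) := by
  unfold Typ
  infer_instance

/-- The relations with a positive coefficient. -/
def Bad (u v : ℤ) : Prop :=
  Typ u v 0 1 1 ∨ Typ u v 0 4 4 ∨ Typ u v 1 2 3 ∨ Typ u v 2 3 5 ∨ Typ u v 1 5 6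

instance (u v : ℤ) : Decidable (Bad u v) := by
  unfold Bad
  infer_instance

/-- No relation `u a + v b ≡ 0 (mod n)` of a bad type. -/
def GenericB (n a b : ℕ) : Prop := ∀ u v : ℤ, Bad u v → ¬ (n : ℤ) ∣ u * a + v * b

end Pool.Agent.Lib.MP_33899d_ntN
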