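import Mathlib

/-!
# Definitions for the order criterion for `T₂` (MP_33899d_nt)
-/

namespace Pool.Agent.Lib.MP_33899d_ntN

/-- Power sums of the roots of `X ^ 3 + X + 1`. -/
def P : ℕ → ℤ
  | 0 => 3
  | 1 => 0
  | 2 => -2
  | (n + 3) => -P (n + 1) - P n

/-- Power sums of the pairwise products of the roots of `X ^ 3 + X + 1`. -/
def R : ℕ → ℤ
  | 0 => 3
  | 1 => 1
  | 2 => 1
  | (n + 3) => R (n + 2) + R n

/-- The value `2 - P n + R n`. -/
def S (n : ℕ) : ℤ := 2 - P n + R n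

/-- The circulant matrix of `1 + X ^ a + X ^ b` modulo `X ^ n - 1`. -/
def circ (n a b : ℕ) : Matrix (Fin n) (Fin n) ℤ := fun i j =>
  (if (j : ℕ) = (i : ℕ) then 1 else 0) + (if (j : ℕ) = ((i : ℕ) + a) % n then 1 else 0) +
    (if (j : ℕ) = ((i : ℕ) + b) % n then 1 else 0)

/-- No relation `u a + v b ≡ 0 (mod n)` with small coefficients. -/
def Generic (n a b : ℕ) : Prop :=
  ∀ u v : ℤ, |u| ≤ 3 → |v| ≤ 3 → |u + v| ≤ 3 → (n : ℤ) ∣ u * a + v * b → u = 0 ∧ v = 0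

end Pool.Agent.Lib.MP_33899d_ntN
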