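import Pool.Agent.Lib.MP_33899d_ntN.Defs

/-!
# The determinant of the circulant matrix

Proof of `det_circ`: let `V = (Matrix.vandermonde fun k : Fin n => ζ ^ (k : ℕ))ᵀ`, that is
`V j k = (ζ ^ k) ^ j`.  Then `(circ n a b).map (Int.cast) * V = V * Matrix.diagonal f` with
`f k = 1 + (ζ ^ k) ^ a + (ζ ^ k) ^ b` (entry `(i, k)`: the sum over `j` picks the terms
`w ^ i + w ^ ((i + a) % n) + w ^ ((i + b) % n)` with `w = ζ ^ k`, `w ^ n = 1`, and
`pow_eq_pow_mod`), and `V.det ≠ 0` by `Matrix.det_vandermonde_ne_zero_iff` (the powers `ζ ^ k`,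
`k < n`, are distinct: `IsPrimitiveRoot.pow_inj`).  Cancel `V.det`.
-/

namespace Pool.Agent.Lib.MP_33899d_ntN

theorem det_circ {K : Type*} [CommRing K] [IsDomain K] {n : ℕ} {ζ : K}
    (hζ : IsPrimitiveRoot ζ n) (a b : ℕ) :
    (((circ n a b).det : ℤ) : K) =
      ∏ k : Fin n, (1 + (ζ ^ (k : ℕ)) ^ a + (ζ ^ (k : ℕ)) ^ b) := by
  classical
  have hV : ((Matrix.vandermonde fun k : Fin n => ζ ^ (k : ℕ)).transpose).det ≠ 0 := by
    rw [Matrix.det_transpose, Matrix.det_vandermonde_ne_zero_iff]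
    intro i j hij
    exact Fin.ext (hζ.pow_inj i.2 j.2 hij)
  have hmul : (circ n a b).map (Int.castRingHom K) *
      (Matrix.vandermonde fun k : Fin n => ζ ^ (k : ℕ)).transpose =
      (Matrix.vandermonde fun k : Fin n => ζ ^ (k : ℕ)).transpose *
        Matrix.diagonal fun k : Fin n => (1 + (ζ ^ (k : ℕ)) ^ a + (ζ ^ (k : ℕ)) ^ b) := by
    ext i k
    rw [Matrix.mul_diagonal, Matrix.mul_apply]
    have hw : (ζ ^ (k : ℕ)) ^ n = 1 := by
      rw [← pow_mul, mul_comm, pow_mul, hζ.pow_eq_one, one_pow]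
    have hn : 0 < n := i.pos
    have key : ∀ m : ℕ, ∑ j : Fin n, (if (j : ℕ) = m % n then (1 : K) else 0) *
        (ζ ^ (k : ℕ)) ^ (j : ℕ) = (ζ ^ (k : ℕ)) ^ m := by
      intro m
      rw [Finset.sum_eq_single (⟨m % n, Nat.mod_lt m hn⟩ : Fin n)]
      · rw [if_pos rfl, one_mul]
        exact (pow_eq_pow_mod m hw).symm
      · intro j _ hj
        rw [if_neg (fun h => hj (Fin.ext h)), zero_mul]
      · intro h
        exact absurd (Finset.mem_univ _) h
    have e : ∀ j : Fin n, (circ n a b).map (Int.castRingHom K) i j *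
        (Matrix.vandermonde fun k : Fin n => ζ ^ (k : ℕ)).transpose j k =
        (if (j : ℕ) = (i : ℕ) % n then (1 : K) else 0) * (ζ ^ (k : ℕ)) ^ (j : ℕ) +
        (if (j : ℕ) = ((i : ℕ) + a) % n then (1 : K) else 0) * (ζ ^ (k : ℕ)) ^ (j : ℕ) +
        (if (j : ℕ) = ((i : ℕ) + b) % n then (1 : K) else 0) * (ζ ^ (k : ℕ)) ^ (j : ℕ) := by
      intro j
      rw [Matrix.map_apply, Matrix.transpose_apply, Matrix.vandermonde_apply,
        Nat.mod_eq_of_lt i.2, ← add_mul, ← add_mul]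
      congr 1
      unfold circ
      rw [map_add, map_add]
      simp only [apply_ite (Int.castRingHom K), map_one, map_zero]
    rw [Finset.sum_congr rfl fun j _ => e j, Finset.sum_add_distrib, Finset.sum_add_distrib,
      key, key, key, Matrix.transpose_apply, Matrix.vandermonde_apply, pow_add, pow_add]
    ring
  have h1 := congrArg Matrix.det hmul
  rw [Matrix.det_mul, Matrix.det_mul, Matrix.det_diagonal, mul_comm] at h1
  have h2 := mul_left_cancel₀ hV h1
  rw [← h2]
  exact (Int.castRingHom K).map_det (circ n a b)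

end Pool.Agent.Lib.MP_33899d_ntN
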