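import Pool.Agent.Lib.MP_33899d_ntN.Defs

/-!
# The determinant is divisible by `3`
-/

namespace Pool.Agent.Lib.MP_33899d_ntN

theorem three_dvd_det {n : ℕ} (hn : 0 < n) (a b : ℕ) : (3 : ℤ) ∣ (circ n a b).det := by
  have h111 : (1 + 1 + 1 : ZMod 3) = 0 := by decide
  have : Fact (Nat.Prime 3) := ⟨Nat.prime_three⟩
  have h : (((circ n a b).det : ℤ) : ZMod 3) = 0 := by
    have h1 : (((circ n a b).det : ℤ) : ZMod 3) = ((circ n a b).map (Int.cast : ℤ → ZMod 3)).det := by
      exact RingHom.map_det (Int.castRingHom (ZMod 3)) (circ n a b)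
    rw [h1]
    apply Matrix.exists_mulVec_eq_zero_iff.1
    refine ⟨fun _ => 1, ?_, ?_⟩
    · intro h0
      have := congrFun h0 (⟨0, hn⟩ : Fin n)
      simp at this
    · funext i
      simp only [Matrix.mulVec, dotProduct, Matrix.map_apply, circ, mul_one, Pi.zero_apply]
      push_cast
      rw [Finset.sum_add_distrib, Finset.sum_add_distrib]
      have hs : ∀ r : ℕ, r < n → ∑ j : Fin n, (if (j : ℕ) = r then (1 : ZMod 3) else 0) = 1 := by
        intro r hr
        rw [Finset.sum_eq_single (⟨r, hr⟩ : Fin n)]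
        · simp
        · intro j _ hj
          rw [if_neg]
          intro h
          exact hj (Fin.ext h)
        · intro h
          exact absurd (Finset.mem_univ _) h
      rw [hs _ i.2, hs _ (Nat.mod_lt _ hn), hs _ (Nat.mod_lt _ hn)]
      exact h111
  exact (ZMod.intCast_zmod_eq_zero_iff_dvd _ 3).1 h

end Pool.Agent.Lib.MP_33899d_ntN
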