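import Pool.Agent.Lib.MP_33899d_ntN.Parseval

/-!
# The fourth moment is at least `639`
-/

namespace Pool.Agent.Lib.MP_33899d_ntN

/-- The sum of the powers of an `n`-th root of unity is a nonnegative real number. -/
private theorem geom_four {n : ℕ} {r : ℂ} (hr : r ^ n = 1) :
    ∃ s : ℝ, 0 ≤ s ∧ ∑ k : Fin n, r ^ (k : ℕ) = (s : ℂ) ∧ (r = 1 → s = n) := by
  rw [Fin.sum_univ_eq_sum_range (fun k => r ^ k) n]
  by_cases h : r = 1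
  · refine ⟨n, Nat.cast_nonneg n, ?_, fun _ => rfl⟩
    subst h
    simp
  · refine ⟨0, le_refl 0, ?_, fun h' => absurd h' h⟩
    have h1 := geom_sum_mul r n
    rw [hr, sub_self] at h1
    rw [(mul_eq_zero.1 h1).resolve_right (sub_ne_zero.2 h)]
    simp

theorem parseval_ge {n : ℕ} (hn : 0 < n) {ζ : ℂ} (hζ : IsPrimitiveRoot ζ n) {m : ℕ}
    (c : Fin m → ℝ) (hc : ∀ i, 0 ≤ c i) (e : Fin m → ℕ) :
    n * ∑ i, c i ^ 2 ≤ ∑ k : Fin n, ‖∑ i : Fin m, (c i : ℂ) * (ζ ^ (k : ℕ)) ^ (e i)‖ ^ 2 := by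
  have hz0 : ζ ≠ 0 := hζ.ne_zero hn.ne'
  have hnorm : ‖ζ‖ = 1 := Complex.norm_eq_one_of_pow_eq_one hζ.pow_eq_one hn.ne'
  have hconj : (starRingEnd ℂ) ζ = ζ⁻¹ := by
    rw [Complex.inv_def, Complex.normSq_eq_norm_sq, hnorm]
    simp
  have hterm : ∀ k : Fin n,
      ((‖∑ i : Fin m, (c i : ℂ) * (ζ ^ (k : ℕ)) ^ (e i)‖ ^ 2 : ℝ) : ℂ) =
        ∑ i : Fin m, ∑ j : Fin m, (c i : ℂ) * (c j : ℂ) *
          (ζ ^ (e i) * (ζ⁻¹) ^ (e j)) ^ (k : ℕ) := by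
    intro k
    rw [Complex.ofReal_pow, ← Complex.mul_conj', map_sum, Finset.sum_mul_sum]
    refine Finset.sum_congr rfl fun i _ => Finset.sum_congr rfl fun j _ => ?_
    rw [map_mul, map_pow, map_pow, hconj, Complex.conj_ofReal, mul_pow, ← pow_mul, ← pow_mul,
      ← pow_mul, ← pow_mul, mul_comm (k : ℕ) (e i), mul_comm (k : ℕ) (e j)]
    ring
  have hr : ∀ i j : Fin m, (ζ ^ (e i) * (ζ⁻¹) ^ (e j)) ^ n = 1 := by
    intro i j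
    rw [mul_pow, ← pow_mul, ← pow_mul, mul_comm (e i), mul_comm (e j), pow_mul, pow_mul,
      inv_pow, hζ.pow_eq_one, inv_one, one_pow, one_pow, mul_one]
  choose s hs0 hs1 hs2 using fun i j => geom_four (hr i j)
  have hC : ((∑ k : Fin n, ‖∑ i : Fin m, (c i : ℂ) * (ζ ^ (k : ℕ)) ^ (e i)‖ ^ 2 : ℝ) : ℂ) =
      ((∑ i, ∑ j, c i * c j * s i j : ℝ) : ℂ) := by
    rw [Complex.ofReal_sum]
    simp_rw [hterm]
    rw [Finset.sum_comm]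
    push_cast
    refine Finset.sum_congr rfl fun i _ => ?_
    rw [Finset.sum_comm]
    refine Finset.sum_congr rfl fun j _ => ?_
    rw [← Finset.mul_sum, hs1 i j]
  have hR : ∑ k : Fin n, ‖∑ i : Fin m, (c i : ℂ) * (ζ ^ (k : ℕ)) ^ (e i)‖ ^ 2 =
      ∑ i, ∑ j, c i * c j * s i j := by exact_mod_cast hC
  rw [hR, Finset.mul_sum]
  refine Finset.sum_le_sum fun i _ => ?_
  have h1 : (n : ℝ) * c i ^ 2 = c i * c i * s i i := by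
    rw [hs2 i i (by rw [inv_pow, mul_inv_cancel₀ (pow_ne_zero _ hz0)])]
    ring
  rw [h1]
  exact Finset.single_le_sum (f := fun j => c i * c j * s i j)
    (fun j _ => mul_nonneg (mul_nonneg (hc i) (hc j)) (hs0 i j)) (Finset.mem_univ i)

private theorem expand_four (x y : ℂ) : (1 + x + y) ^ 4 =
    ∑ i : Fin 15, (((![1, 4, 4, 6, 12, 6, 4, 12, 12, 4, 1, 4, 6, 4, 1] : Fin 15 → ℝ) i : ℝ) : ℂ) *
      (x ^ (![0, 1, 0, 2, 1, 0, 3, 2, 1, 0, 4, 3, 2, 1, 0] i : ℕ) *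
        y ^ (![0, 0, 1, 0, 1, 2, 0, 1, 2, 3, 0, 1, 2, 3, 4] i : ℕ)) := by
  simp [Fin.sum_univ_succ]
  ring

theorem moment_four {n : ℕ} (hn : 0 < n) {ζ : ℂ} (hζ : IsPrimitiveRoot ζ n) (a b : ℕ) :
    n * 639 ≤ ∑ k : Fin n, (‖1 + (ζ ^ (k : ℕ)) ^ a + (ζ ^ (k : ℕ)) ^ b‖ ^ 2) ^ 4 := by
  have h := parseval_ge hn hζ ![1, 4, 4, 6, 12, 6, 4, 12, 12, 4, 1, 4, 6, 4, 1]
    (by intro i; fin_cases i <;> norm_num)
    (fun i => ![0, 1, 0, 2, 1, 0, 3, 2, 1, 0, 4, 3, 2, 1, 0] i * a +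
      ![0, 0, 1, 0, 1, 2, 0, 1, 2, 3, 0, 1, 2, 3, 4] i * b)
  have h1 : (∑ i, (![1, 4, 4, 6, 12, 6, 4, 12, 12, 4, 1, 4, 6, 4, 1] : Fin 15 → ℝ) i ^ 2) =
      639 := by
    simp [Fin.sum_univ_succ]
    norm_num
  rw [h1] at h
  refine h.trans (le_of_eq ?_)
  refine Finset.sum_congr rfl fun k _ => ?_
  have h4 : (‖1 + (ζ ^ (k : ℕ)) ^ a + (ζ ^ (k : ℕ)) ^ b‖ ^ 2) ^ 4 =
      ‖(1 + (ζ ^ (k : ℕ)) ^ a + (ζ ^ (k : ℕ)) ^ b) ^ 4‖ ^ 2 := by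
    rw [norm_pow]
    ring
  rw [h4, expand_four]
  congr 2
  refine Finset.sum_congr rfl fun i _ => ?_
  rw [pow_add, mul_comm _ a, mul_comm _ b, pow_mul _ a _, pow_mul _ b _]

end Pool.Agent.Lib.MP_33899d_ntN
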