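import Pool.Agent.Lib.MP_33899d_ntN.Parseval

/-!
# The first three moments of `|1 + ζ ^ (k a) + ζ ^ (k b)| ^ 2`

Proof of `moments`: apply `parseval` with the exponents `![0, a, b]`, coefficients `![1, 1, 1]`;
`![0, a, b, 2 a, a + b, 2 b]`, `![1, 2, 2, 1, 2, 1]`;
`![0, a, b, 2 a, a + b, 2 b, 3 a, 2 a + b, a + 2 b, 3 b]`, `![1, 3, 3, 3, 6, 3, 1, 3, 3, 1]`
(the square and the cube of `1 + x + y`), using `‖z‖ ^ 4 = ‖z ^ 2‖ ^ 2`, `‖z‖ ^ 6 = ‖z ^ 3‖ ^ 2`.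
Injectivity of the exponents modulo `n`: `Nat.modEq_iff_dvd` and `Generic`.
-/

namespace Pool.Agent.Lib.MP_33899d_ntN

private theorem moments_inj {n a b : ℕ} (h : Generic n a b) {m : ℕ} (p q : Fin m → ℕ)
    (hpq : ∀ i, p i + q i ≤ 3) (hinj : ∀ i j, p i = p j → q i = q j → i = j) :
    ∀ i j, p i * a + q i * b ≡ p j * a + q j * b [MOD n] → i = j := by
  intro i j hij
  have h1 := (Nat.modEq_iff_dvd).1 hij
  have h2 : (n : ℤ) ∣ ((p j : ℤ) - p i) * a + ((q j : ℤ) - q i) * b := by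
    push_cast at h1
    have h3 : ((p j : ℤ) - p i) * a + ((q j : ℤ) - q i) * b
        = (p j * a + q j * b) - (p i * a + q i * b) := by ring
    rw [h3]
    exact h1
  have hi := hpq i
  have hj := hpq j
  obtain ⟨h3, h4⟩ := h _ _ (abs_le.2 ⟨by omega, by omega⟩) (abs_le.2 ⟨by omega, by omega⟩)
    (abs_le.2 ⟨by omega, by omega⟩) h2
  exact hinj i j (by omega) (by omega)

private theorem moments_gen {n : ℕ} (hn : 0 < n) {ζ : ℂ} (hζ : IsPrimitiveRoot ζ n) {a b : ℕ}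
    (h : Generic n a b) {m : ℕ} (c : Fin m → ℝ) (p q : Fin m → ℕ)
    (hpq : ∀ i, p i + q i ≤ 3) (hinj : ∀ i j, p i = p j → q i = q j → i = j) (r : ℕ)
    (hexp : ∀ x y : ℂ, (1 + x + y) ^ r = ∑ i, (c i : ℂ) * (x ^ p i * y ^ q i)) :
    ∑ k : Fin n, (‖1 + (ζ ^ (k : ℕ)) ^ a + (ζ ^ (k : ℕ)) ^ b‖ ^ 2) ^ r = n * ∑ i, c i ^ 2 := by
  rw [← parseval hn hζ c (fun i => p i * a + q i * b) (moments_inj h p q hpq hinj)]
  refine Finset.sum_congr rfl fun k _ => ?_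
  rw [← pow_mul, mul_comm 2 r, pow_mul, ← norm_pow, hexp]
  congr 2
  refine Finset.sum_congr rfl fun i _ => ?_
  rw [pow_add, mul_comm (p i) a, mul_comm (q i) b, pow_mul _ a (p i), pow_mul _ b (q i)]

theorem moment_one {n : ℕ} (hn : 0 < n) {ζ : ℂ} (hζ : IsPrimitiveRoot ζ n) {a b : ℕ}
    (h : Generic n a b) :
    ∑ k : Fin n, ‖1 + (ζ ^ (k : ℕ)) ^ a + (ζ ^ (k : ℕ)) ^ b‖ ^ 2 = n * 3 := by
  have h1 := moments_gen hn hζ h ![1, 1, 1] ![0, 1, 0] ![0, 0, 1] (by decide) (by decide) 1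
    (fun x y => by simp [Fin.sum_univ_succ]; ring)
  simp only [pow_one] at h1
  rw [h1]
  congr 1
  simp [Fin.sum_univ_succ]
  norm_num

theorem moment_two {n : ℕ} (hn : 0 < n) {ζ : ℂ} (hζ : IsPrimitiveRoot ζ n) {a b : ℕ}
    (h : Generic n a b) :
    ∑ k : Fin n, (‖1 + (ζ ^ (k : ℕ)) ^ a + (ζ ^ (k : ℕ)) ^ b‖ ^ 2) ^ 2 = n * 15 := by
  rw [moments_gen hn hζ h ![1, 2, 2, 1, 2, 1] ![0, 1, 0, 2, 1, 0] ![0, 0, 1, 0, 1, 2]
    (by decide) (by decide) 2 (fun x y => by simp [Fin.sum_univ_succ]; ring)]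
  congr 1
  simp [Fin.sum_univ_succ]
  norm_num

theorem moment_three {n : ℕ} (hn : 0 < n) {ζ : ℂ} (hζ : IsPrimitiveRoot ζ n) {a b : ℕ}
    (h : Generic n a b) :
    ∑ k : Fin n, (‖1 + (ζ ^ (k : ℕ)) ^ a + (ζ ^ (k : ℕ)) ^ b‖ ^ 2) ^ 3 = n * 93 := by
  rw [moments_gen hn hζ h ![1, 3, 3, 3, 6, 3, 1, 3, 3, 1] ![0, 1, 0, 2, 1, 0, 3, 2, 1, 0]
    ![0, 0, 1, 0, 1, 2, 0, 1, 2, 3] (by decide) (by decide) 3
    (fun x y => by simp [Fin.sum_univ_succ]; ring)]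
  congr 1
  simp [Fin.sum_univ_succ]
  norm_num

end Pool.Agent.Lib.MP_33899d_ntN
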