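import Pool.Agent.Lib.MP_33899d_ntN.Defs

/-!
# Relations between the two powers modulo `p`

Proof of `rel`: 37 pairs `(u, v)`.  Let `K = ZMod p`; `n` is coprime to `6`, so `w ^ 2 = 1` or
`w ^ 3 = 1` with `w ^ n = 1` implies `w = 1`; thus `x ^ u * y ^ v = 1` with `(u, v) = d (u', v')`
gives `x ^ u' * y ^ v' = 1`.
* `x = 1`: then `y = -2`, so `1 = y ^ n = - 2 ^ n = -1`, contradiction as `p ≠ 2`; same for
  `y = 1`; `x = y`: `2 x = -1`, so `2 ^ n * x ^ n = (-1) ^ n = -1`.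
* `x y = 1`, `y = x ^ 2`, `x = y ^ 2`: some `w` with `w ^ n = 1` has `w ^ 2 + w + 1 = 0`, so
  `w ^ 3 = 1`, `w = 1`, `3 = 0` in `K`, contradiction.
* `x ^ 2 y = 1` (`w = x⁻¹`), `x y ^ 2 = 1` (`w = y⁻¹`), `x = y ^ 3` (`w = y`), `y = x ^ 3`
  (`w = x`), `x ^ 3 = y ^ 2` (`w = x / y`), `x ^ 2 = y ^ 3` (`w = y / x`): `w ^ n = 1` and
  `w ^ 3 + w + 1 = 0`, contradicting `hc`.
-/

namespace Pool.Agent.Lib.MP_33899d_ntN

private theorem w_eq_one {p : ℕ} {n k : ℕ} (hk : n.gcd k = 1) {w : ZMod p}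
    (h1 : w ^ n = 1) (h2 : w ^ k = 1) : w = 1 := by
  have := pow_gcd_eq_one.2 ⟨h1, h2⟩
  rwa [hk, pow_one] at this

private theorem facts {p : ℕ} [Fact p.Prime] (hp2 : p ≠ 2) (hp3 : p ≠ 3) {n : ℕ}
    (hn : n.Coprime 6) (h2 : (2 : ZMod p) ^ n = 1) {x y : ZMod p} (hx : x ^ n = 1)
    (hy : y ^ n = 1) (hxy : 1 + x + y = 0)
    (hc : ∀ w : ZMod p, w ^ n = 1 → w ^ 3 + w + 1 ≠ 0) (hx0 : x ≠ 0) (hy0 : y ≠ 0) :
    (x ≠ 1 ∧ x ^ 2 ≠ 1 ∧ x ^ 3 ≠ 1) ∧ (x ≠ y ∧ x ^ 2 ≠ y ^ 2 ∧ x ^ 3 ≠ y ^ 3) ∧ x * y ≠ 1 ∧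
      x ^ 2 ≠ y ∧ x ^ 2 * y ≠ 1 ∧ x ^ 3 ≠ y ∧ x ^ 3 ≠ y ^ 2 := by
  have n2 : n.gcd 2 = 1 := Nat.Coprime.coprime_dvd_right (by norm_num) hn
  have n3 : n.gcd 3 = 1 := Nat.Coprime.coprime_dvd_right (by norm_num) hn
  have hodd : Odd n := Nat.coprime_two_right.1 n2
  have e2 : (2 : ZMod p) ≠ 0 := by
    intro h
    have h' : ((2 : ℕ) : ZMod p) = 0 := by exact_mod_cast h
    rw [ZMod.natCast_eq_zero_iff] at h'
    exact hp2 ((Nat.prime_dvd_prime_iff_eq Fact.out Nat.prime_two).1 h')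
  have e3 : (3 : ZMod p) ≠ 0 := by
    intro h
    have h' : ((3 : ℕ) : ZMod p) = 0 := by exact_mod_cast h
    rw [ZMod.natCast_eq_zero_iff] at h'
    exact hp3 ((Nat.prime_dvd_prime_iff_eq Fact.out Nat.prime_three).1 h')
  have hneg : ∀ a : ZMod p, a ^ n = 1 → (-a) ^ n = 1 → False := by
    intro a h1 h3
    rw [hodd.neg_pow, h1] at h3
    exact e2 (by linear_combination -h3)
  have x1 : x ≠ 1 := by
    rintro rfl
    have hy' : y = -2 := by linear_combination hxy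
    rw [hy'] at hy
    exact hneg 2 h2 hy
  have xy : x ≠ y := by
    rintro rfl
    have hx' : 2 * x = -1 := by linear_combination hxy
    have h1 : (2 * x) ^ n = 1 := by rw [mul_pow, h2, hx, one_mul]
    rw [hx'] at h1
    exact hneg 1 (one_pow n) h1
  have hdiv : (x / y) ^ n = 1 := by rw [div_pow, hx, hy, div_one]
  refine ⟨⟨x1, fun h => x1 (w_eq_one n2 hx h), fun h => x1 (w_eq_one n3 hx h)⟩,
    ⟨xy, fun h => xy ?_, fun h => xy ?_⟩, ?_, ?_, ?_, ?_, ?_⟩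
  · have := w_eq_one n2 hdiv (by rw [div_pow, h, div_self (pow_ne_zero 2 hy0)])
    exact (div_eq_one_iff_eq hy0).1 this
  · have := w_eq_one n3 hdiv (by rw [div_pow, h, div_self (pow_ne_zero 3 hy0)])
    exact (div_eq_one_iff_eq hy0).1 this
  · intro h
    refine x1 (w_eq_one n3 hx ?_)
    linear_combination (x - 1) * (x * hxy - h)
  · intro h
    refine x1 (w_eq_one n3 hx ?_)
    linear_combination (x - 1) * (hxy + h)
  · intro h
    have hw : (x⁻¹) ^ n = 1 := by rw [inv_pow, hx, inv_one]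
    refine hc x⁻¹ hw ?_
    have : x ^ 3 * ((x⁻¹) ^ 3 + x⁻¹ + 1) = 0 := by
      have hxi : x * x⁻¹ = 1 := mul_inv_cancel₀ hx0
      have h5 : x ^ 3 * ((x⁻¹) ^ 3 + x⁻¹ + 1) = (x * x⁻¹) ^ 3 + x ^ 2 * (x * x⁻¹) + x ^ 3 := by
        ring
      rw [h5, hxi]
      linear_combination x ^ 2 * hxy - h
    exact (mul_eq_zero.1 this).resolve_left (pow_ne_zero 3 hx0)
  · intro h
    exact hc x hx (by linear_combination hxy + h)
  · intro h
    refine hc (x / y) hdiv ?_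
    have h5 : x ^ 3 * ((x / y) ^ 3 + x / y + 1) = 0 := by
      have hyi : y * y⁻¹ = 1 := mul_inv_cancel₀ hy0
      have h6 : x ^ 3 * y⁻¹ = y := by
        rw [h]
        linear_combination y * hyi
      have h7 : x ^ 3 * ((x / y) ^ 3 + x / y + 1) =
          (x ^ 3 * y⁻¹) ^ 2 * y⁻¹ + x * (x ^ 3 * y⁻¹) + x ^ 3 := by
        rw [div_eq_mul_inv]
        ring
      rw [h7, h6, h]
      linear_combination y * hxy + y * hyi
    exact (mul_eq_zero.1 h5).resolve_left (pow_ne_zero 3 hx0)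

theorem rel {p : ℕ} [Fact p.Prime] (hp2 : p ≠ 2) (hp3 : p ≠ 3) {n : ℕ} (hn : n.Coprime 6)
    (h2 : (2 : ZMod p) ^ n = 1) {x y : ZMod p} (hx : x ^ n = 1) (hy : y ^ n = 1)
    (hxy : 1 + x + y = 0) (hc : ∀ w : ZMod p, w ^ n = 1 → w ^ 3 + w + 1 ≠ 0) (u v : ℤ)
    (hu : |u| ≤ 3) (hv : |v| ≤ 3) (huv : |u + v| ≤ 3) (h : x ^ u * y ^ v = 1) :
    u = 0 ∧ v = 0 := by
  have hn0 : n ≠ 0 := by
    rintro rfl
    norm_num at hn
  have hx0 : x ≠ 0 := by
    rintro rfl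
    rw [zero_pow hn0] at hx
    exact zero_ne_one hx
  have hy0 : y ≠ 0 := by
    rintro rfl
    rw [zero_pow hn0] at hy
    exact zero_ne_one hy
  obtain ⟨⟨a1, a2, a3⟩, ⟨b1, b2, b3⟩, c1, d1, e1, f1, g1⟩ :=
    facts hp2 hp3 hn h2 hx hy hxy hc hx0 hy0
  obtain ⟨⟨a1', a2', a3'⟩, -, -, d1', e1', f1', g1'⟩ :=
    facts hp2 hp3 hn h2 hy hx (by linear_combination hxy) hc hy0 hx0
  have key : x ^ u.toNat * y ^ v.toNat = x ^ (-u).toNat * y ^ (-v).toNat := by
    have hu' : u = (u.toNat : ℤ) - ((-u).toNat : ℤ) := (Int.toNat_sub_toNat_neg u).symm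
    have hv' : v = (v.toNat : ℤ) - ((-v).toNat : ℤ) := (Int.toNat_sub_toNat_neg v).symm
    have h5 := h
    rw [hu', hv', zpow_sub₀ hx0, zpow_sub₀ hy0, zpow_natCast, zpow_natCast, zpow_natCast,
      zpow_natCast, div_mul_div_comm, div_eq_one_iff_eq
        (mul_ne_zero (pow_ne_zero _ hx0) (pow_ne_zero _ hy0))] at h5
    exact h5
  clear h
  have t3 : (3 : ℤ).toNat = 3 := rfl
  have t2 : (2 : ℤ).toNat = 2 := rfl
  have m1 : (-1 : ℤ).toNat = 0 := rfl
  have m2 : (-2 : ℤ).toNat = 0 := rfl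
  have m3 : (-3 : ℤ).toNat = 0 := rfl
  rw [abs_le] at hu hv huv
  obtain ⟨hu1, hu2⟩ := hu
  obtain ⟨hv1, hv2⟩ := hv
  obtain ⟨huv1, huv2⟩ := huv
  interval_cases u <;> interval_cases v <;> first
    | exact ⟨rfl, rfl⟩
    | (exfalso; omega)
    | (exfalso
       norm_num [t3, t2, m1, m2, m3] at key
       first
         | exact a1 key | exact a2 key | exact a3 key | exact a1 key.symm | exact a2 key.symm
         | exact a3 key.symm | exact a1' key | exact a2' key | exact a3' key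
         | exact a1' key.symm | exact a2' key.symm | exact a3' key.symm | exact b1 key
         | exact b2 key | exact b3 key | exact b1 key.symm | exact b2 key.symm
         | exact b3 key.symm | exact c1 key | exact c1 key.symm | exact d1 key
         | exact d1 key.symm | exact d1' key | exact d1' key.symm | exact e1 key
         | exact e1 key.symm | exact f1 key | exact f1 key.symm | exact f1' key
         | exact f1' key.symm | exact g1 key | exact g1 key.symm | exact g1' key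
         | exact g1' key.symm | exact e1' (by rw [mul_comm]; exact key)
         | exact e1' (by rw [mul_comm]; exact key.symm)
         | (refine a2 ?_; rcases key with h | h <;> rw [h] <;> ring)
         | (refine a2' ?_; rcases key with h | h <;> rw [h] <;> ring))

end Pool.Agent.Lib.MP_33899d_ntN
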