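import Pool.Agent.Lib.MP_33899d_ntN.Seq

/-!
# Primes dividing `S n` are in `T₂`

Proof of `exists_of_dvd_S`: let `K` be the algebraic closure of `ZMod p`.  Take a root `α` of
`X ^ 3 + X + 1` in `K`, a root `β` of `X ^ 2 + α X + (α ^ 2 + 1)` (`IsAlgClosed.exists_root`) and
`γ = -α - β`; then `α + β + γ = 0`, `α β + β γ + γ α = 1`, `α β γ = -1`.  By induction
`P n = α ^ n + β ^ n + γ ^ n`, `R n = (α β) ^ n + (β γ) ^ n + (γ α) ^ n` in `K` (all three `α, β, γ`
satisfy `x ^ 3 = -x - 1`, the products satisfy `x ^ 3 = x ^ 2 + 1`).  For `n` odd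
`(α ^ n - 1) (β ^ n - 1) (γ ^ n - 1) = (α β γ) ^ n - R n + P n - 1 = - S n = 0`, so a root `w` of
`X ^ 3 + X + 1` has `w ^ n = 1`.  As `2` is a primitive `n`-th root of unity in `ZMod p`, hence in
`K`, `w = 2 ^ i` (`IsPrimitiveRoot.eq_pow_of_pow_eq_one`), so `2 ^ (3 i) + 2 ^ i + 1 = 0` in `K`, so
in `ZMod p`; shift the exponents by `n` to make them positive.
-/

namespace Pool.Agent.Lib.MP_33899d_ntN

private theorem sc_roots (K : Type*) [Field K] [IsAlgClosed K] :
    ∃ α β γ : K, α + β + γ = 0 ∧ α * β + β * γ + γ * α = 1 ∧ α * β * γ = -1 := by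
  obtain ⟨α, hα⟩ := IsAlgClosed.exists_root (Polynomial.X ^ 3 + Polynomial.X + 1 : Polynomial K)
    (by
      have h : (Polynomial.X ^ 3 + Polynomial.X + 1 : Polynomial K).degree = 3 := by
        compute_degree!
      rw [h]; norm_num)
  obtain ⟨β, hβ⟩ := IsAlgClosed.exists_root
    (Polynomial.X ^ 2 + Polynomial.C α * Polynomial.X + Polynomial.C (α ^ 2 + 1) : Polynomial K)
    (by
      have h : (Polynomial.X ^ 2 + Polynomial.C α * Polynomial.X +
          Polynomial.C (α ^ 2 + 1) : Polynomial K).degree = 2 := by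
        compute_degree!
      rw [h]; norm_num)
  have h1 : α ^ 3 + α + 1 = 0 := by
    have := hα
    simpa [Polynomial.IsRoot.def] using this
  have h2 : β ^ 2 + α * β + (α ^ 2 + 1) = 0 := by
    have := hβ
    simpa [Polynomial.IsRoot.def] using this
  refine ⟨α, β, -α - β, by ring, ?_, ?_⟩
  · linear_combination -h2
  · linear_combination h1 - α * h2

private theorem sc_P {K : Type*} [Field K] {α β γ : K} (e1 : α + β + γ = 0)
    (e2 : α * β + β * γ + γ * α = 1) (e3 : α * β * γ = -1) (n : ℕ) :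
    ((P n : ℤ) : K) = α ^ n + β ^ n + γ ^ n := by
  induction n using Nat.strong_induction_on with
  | _ n ih =>
    match n, ih with
    | 0, _ => simp [P]; norm_num
    | 1, _ => simp [P, e1]
    | 2, _ =>
      simp only [P]
      push_cast
      linear_combination -(α + β + γ) * e1 + 2 * e2
    | (m + 3), ih =>
      have h0 := ih m (by omega)
      have h1 := ih (m + 1) (by omega)
      simp only [P]
      push_cast
      rw [h0, h1]
      linear_combination (-(α ^ m * α ^ 2 + β ^ m * β ^ 2 + γ ^ m * γ ^ 2)) * e1 +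
        (α ^ m * α + β ^ m * β + γ ^ m * γ) * e2 - (α ^ m + β ^ m + γ ^ m) * e3

private theorem sc_R {K : Type*} [Field K] {α β γ : K} (e1 : α + β + γ = 0)
    (e2 : α * β + β * γ + γ * α = 1) (e3 : α * β * γ = -1) (n : ℕ) :
    ((R n : ℤ) : K) = (α * β) ^ n + (β * γ) ^ n + (γ * α) ^ n := by
  set x := α * β with hx
  set y := β * γ with hy
  set z := γ * α with hz
  have f1 : x + y + z = 1 := e2
  have f2 : x * y + y * z + z * x = 0 := by
    rw [hx, hy, hz]
    linear_combination (α * β * γ) * e1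
  have f3 : x * y * z = 1 := by
    rw [hx, hy, hz]
    linear_combination (α * β * γ - 1) * e3
  clear_value x y z
  induction n using Nat.strong_induction_on with
  | _ n ih =>
    match n, ih with
    | 0, _ => simp [R]; norm_num
    | 1, _ => simp [R, f1]
    | 2, _ =>
      simp only [R]
      push_cast
      linear_combination -(x + y + z + 1) * f1 + 2 * f2
    | (m + 3), ih =>
      have h0 := ih m (by omega)
      have h1 := ih (m + 2) (by omega)
      simp only [R]
      push_cast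
      rw [h0, h1]
      linear_combination (-(x ^ m * x ^ 2 + y ^ m * y ^ 2 + z ^ m * z ^ 2)) * f1 +
        (x ^ m * x + y ^ m * y + z ^ m * z) * f2 - (x ^ m + y ^ m + z ^ m) * f3

private theorem sc_root {K : Type*} [Field K] {α β γ : K} (e1 : α + β + γ = 0)
    (e2 : α * β + β * γ + γ * α = 1) (e3 : α * β * γ = -1) :
    α ^ 3 + α + 1 = 0 ∧ β ^ 3 + β + 1 = 0 ∧ γ ^ 3 + γ + 1 = 0 := by
  refine ⟨?_, ?_, ?_⟩
  · linear_combination α ^ 2 * e1 - α * e2 + e3
  · linear_combination β ^ 2 * e1 - β * e2 + e3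
  · linear_combination γ ^ 2 * e1 - γ * e2 + e3

theorem exists_of_dvd_S {p : ℕ} (hp : p.Prime) {n : ℕ} (hn : Odd n)
    (h2 : IsPrimitiveRoot (2 : ZMod p) n) (hd : (p : ℤ) ∣ S n) :
    ∃ a b : ℕ, 1 ≤ a ∧ 1 ≤ b ∧ p ∣ 2 ^ a + 2 ^ b + 1 := by
  have : Fact p.Prime := ⟨hp⟩
  have : NeZero n := ⟨by rintro rfl; exact absurd hn (by decide)⟩
  have hn1 : 1 ≤ n := NeZero.one_le
  obtain ⟨α, β, γ, e1, e2, e3⟩ := sc_roots (AlgebraicClosure (ZMod p))
  have : CharP (AlgebraicClosure (ZMod p)) p := inferInstance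
  have hP := sc_P e1 e2 e3 n
  have hR := sc_R e1 e2 e3 n
  have hS : ((S n : ℤ) : AlgebraicClosure (ZMod p)) = 0 :=
    (CharP.intCast_eq_zero_iff (AlgebraicClosure (ZMod p)) p (S n)).2 hd
  have hS2 : (2 : AlgebraicClosure (ZMod p)) - (α ^ n + β ^ n + γ ^ n) +
      ((α * β) ^ n + (β * γ) ^ n + (γ * α) ^ n) = 0 := by
    rw [← hP, ← hR, ← hS]
    simp only [S]
    push_cast
    ring
  have h3 : α ^ n * β ^ n * γ ^ n = -1 := by
    rw [← mul_pow, ← mul_pow, e3, hn.neg_one_pow]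
  have hprod : (α ^ n - 1) * (β ^ n - 1) * (γ ^ n - 1) = 0 := by
    rw [mul_pow, mul_pow, mul_pow] at hS2
    linear_combination h3 - hS2
  obtain ⟨r1, r2, r3⟩ := sc_root e1 e2 e3
  have hw : ∃ w : AlgebraicClosure (ZMod p), w ^ n = 1 ∧ w ^ 3 + w + 1 = 0 := by
    rcases mul_eq_zero.1 hprod with h | h
    · rcases mul_eq_zero.1 h with h | h
      · exact ⟨α, sub_eq_zero.1 h, r1⟩
      · exact ⟨β, sub_eq_zero.1 h, r2⟩
    · exact ⟨γ, sub_eq_zero.1 h, r3⟩
  obtain ⟨w, hw1, hw2⟩ := hw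
  have hprim : IsPrimitiveRoot (2 : AlgebraicClosure (ZMod p)) n := by
    have h := h2.map_of_injective
      (algebraMap (ZMod p) (AlgebraicClosure (ZMod p))).injective
    rwa [map_ofNat] at h
  obtain ⟨i, -, hi⟩ := hprim.eq_pow_of_pow_eq_one hw1
  refine ⟨3 * i + n, i + n, by omega, by omega, ?_⟩
  rw [← CharP.cast_eq_zero_iff (AlgebraicClosure (ZMod p)) p]
  push_cast
  have h5 : (2 : AlgebraicClosure (ZMod p)) ^ n = 1 := hprim.pow_eq_one
  rw [pow_add, pow_add, h5, mul_one, mul_one, mul_comm 3 i, pow_mul, hi]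
  exact hw2

end Pool.Agent.Lib.MP_33899d_ntN
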