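import Pool.Agent.Lib.MP_33899d_ntN.LogIneqB
import Pool.Agent.Lib.MP_33899d_ntN.Det
import Pool.Agent.Lib.MP_33899d_ntN.Moments
import Pool.Agent.Lib.MP_33899d_ntN.Rel
import Pool.Agent.Lib.MP_33899d_ntN.SeqConv
import Pool.Agent.Lib.MP_33899d_ntN.MomentFour
import Pool.Agent.Lib.MP_33899d_ntN.DetThree

/-!
# The order criterion, version with four moments
-/

namespace Pool.Agent.Lib.MP_33899d_ntN

/-- The three terms of `1 + u + v` cannot cancel for `n`-th roots of unity, `n` coprime to `3`. -/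
theorem ne_zero_of_pow {n : ℕ} (hn : n.Coprime 3) {u v : ℂ} (hu : u ^ n = 1) (hv : v ^ n = 1)
    (hn0 : 0 < n) : 1 + u + v ≠ 0 := by
  intro h
  have nu : ‖u‖ = 1 := Complex.norm_eq_one_of_pow_eq_one hu hn0.ne'
  have nv : ‖v‖ = 1 := Complex.norm_eq_one_of_pow_eq_one hv hn0.ne'
  have cu : u * (starRingEnd ℂ) u = 1 := by
    rw [Complex.mul_conj, Complex.normSq_eq_norm_sq, nu]; norm_num
  have cv : v * (starRingEnd ℂ) v = 1 := by
    rw [Complex.mul_conj, Complex.normSq_eq_norm_sq, nv]; norm_num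
  have hc : 1 + (starRingEnd ℂ) u + (starRingEnd ℂ) v = 0 := by
    have := congrArg (starRingEnd ℂ) h
    simpa using this
  have h1 : u * v + v + u = 0 := by
    have : u * v * (1 + (starRingEnd ℂ) u + (starRingEnd ℂ) v) = 0 := by rw [hc, mul_zero]
    linear_combination this - v * cu - u * cv
  have h2 : u * v = 1 := by linear_combination h1 - h
  have h3 : u ^ 2 + u + 1 = 0 := by linear_combination u * h - h2
  have h4 : u ^ 3 = 1 := by linear_combination (u - 1) * h3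
  have h5 : orderOf u ∣ 1 := by
    have := Nat.dvd_gcd (orderOf_dvd_of_pow_eq_one hu) (orderOf_dvd_of_pow_eq_one h4)
    rwa [hn] at this
  have h6 : u = 1 := by
    have := orderOf_dvd_iff_pow_eq_one.1 h5
    simpa using this
  rw [h6] at h3
  norm_num at h3

theorem det_bound {n : ℕ} (hn : 0 < n) (h3 : n.Coprime 3) {a b : ℕ} (h : Generic n a b) :
    (circ n a b).det ≠ 0 ∧ |((circ n a b).det : ℝ)| < (73 / 50) ^ n := by
  have hζ := Complex.isPrimitiveRoot_exp n hn.ne'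
  set ζ : ℂ := Complex.exp (2 * Real.pi * Complex.I / n) with hζdef
  have hdet := det_circ hζ a b
  have hne : ∀ k : Fin n, 1 + (ζ ^ (k : ℕ)) ^ a + (ζ ^ (k : ℕ)) ^ b ≠ 0 := by
    intro k
    apply ne_zero_of_pow h3 _ _ hn
    · rw [← pow_mul, ← pow_mul, show (k : ℕ) * (a * n) = n * ((k : ℕ) * a) by ring, pow_mul,
        hζ.pow_eq_one, one_pow]
    · rw [← pow_mul, ← pow_mul, show (k : ℕ) * (b * n) = n * ((k : ℕ) * b) by ring, pow_mul,
        hζ.pow_eq_one, one_pow]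
  have hd0 : (circ n a b).det ≠ 0 := by
    intro h0
    rw [h0, Int.cast_zero] at hdet
    exact (Finset.prod_ne_zero_iff.2 fun k _ => hne k) hdet.symm
  refine ⟨hd0, ?_⟩
  set t : Fin n → ℝ := fun k => ‖1 + (ζ ^ (k : ℕ)) ^ a + (ζ ^ (k : ℕ)) ^ b‖ ^ 2 with ht
  have htpos : ∀ k, 0 < t k := fun k => by
    have := norm_pos_iff.2 (hne k)
    simp only [ht]; positivity
  have htle : ∀ k, t k ≤ 9 := fun k => by
    have h1 : ‖(ζ ^ (k : ℕ)) ^ a‖ = 1 := by
      rw [norm_pow, norm_pow, Complex.norm_eq_one_of_pow_eq_one hζ.pow_eq_one hn.ne', one_pow,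
        one_pow]
    have h2 : ‖(ζ ^ (k : ℕ)) ^ b‖ = 1 := by
      rw [norm_pow, norm_pow, Complex.norm_eq_one_of_pow_eq_one hζ.pow_eq_one hn.ne', one_pow,
        one_pow]
    have h3 : ‖1 + (ζ ^ (k : ℕ)) ^ a + (ζ ^ (k : ℕ)) ^ b‖ ≤ 3 := by
      refine (norm_add₃_le).trans ?_
      rw [h1, h2, norm_one]
      norm_num
    simp only [ht]
    nlinarith [norm_nonneg (1 + (ζ ^ (k : ℕ)) ^ a + (ζ ^ (k : ℕ)) ^ b)]
  have hsq : |((circ n a b).det : ℝ)| ^ 2 = ∏ k, t k := by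
    have h1 : ‖(((circ n a b).det : ℤ) : ℂ)‖ = |((circ n a b).det : ℝ)| := by
      rw [Complex.norm_intCast]
    rw [← h1, hdet, norm_prod, ← Finset.prod_pow]
  have hlog : Real.log (∏ k, t k) ≤ n * (50353 / 66560) := by
    rw [Real.log_prod (fun k _ => (htpos k).ne')]
    calc ∑ k, Real.log (t k)
        ≤ ∑ k, (-(15 * t k ^ 4 / 7168) + 59 * t k ^ 3 / 1248 - 4577 * t k ^ 2 / 11648 +
            295 * t k / 182 - 89 / 70) :=
          Finset.sum_le_sum fun k _ => log_le_four (htpos k) (htle k)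
      _ = -(15 / 7168) * (∑ k, t k ^ 4) + 59 / 1248 * (∑ k, t k ^ 3) -
            4577 / 11648 * (∑ k, t k ^ 2) + 295 / 182 * (∑ k, t k) - n * (89 / 70) := by
          have hcard : ∑ k : Fin n, (89 / 70 : ℝ) = n * (89 / 70) := by simp
          rw [← hcard, Finset.mul_sum, Finset.mul_sum, Finset.mul_sum, Finset.mul_sum,
            ← Finset.sum_add_distrib, ← Finset.sum_sub_distrib, ← Finset.sum_add_distrib,
            ← Finset.sum_sub_distrib]
          refine Finset.sum_congr rfl fun k _ => ?_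
          ring
      _ ≤ n * (50353 / 66560) := by
          have m1 : ∑ k, t k = n * 3 := moment_one hn hζ h
          have m2 : ∑ k, t k ^ 2 = n * 15 := moment_two hn hζ h
          have m3 : ∑ k, t k ^ 3 = n * 93 := moment_three hn hζ h
          have m4 : n * 639 ≤ ∑ k, t k ^ 4 := moment_four hn hζ a b
          rw [m1, m2, m3]
          linarith
  have hprod : 0 < ∏ k, t k := Finset.prod_pos fun k _ => htpos k
  have hle : ∏ k, t k < ((73 / 50 : ℝ) ^ 2) ^ n := by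
    calc ∏ k, t k = Real.exp (Real.log (∏ k, t k)) := (Real.exp_log hprod).symm
      _ ≤ Real.exp (n * (50353 / 66560)) := Real.exp_le_exp.2 hlog
      _ = Real.exp (50353 / 66560) ^ n := by rw [← Real.exp_nat_mul]
      _ < ((73 / 50) ^ 2) ^ n := pow_lt_pow_left₀ exp_lt_four (Real.exp_pos _).le hn.ne'
  have h2 : |((circ n a b).det : ℝ)| ^ 2 < ((73 / 50 : ℝ) ^ n) ^ 2 := by
    rw [hsq, ← pow_mul, mul_comm n 2, pow_mul]
    exact hle
  exact lt_of_pow_lt_pow_left₀ 2 (by positivity) h2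

theorem prime_lt {p : ℕ} (hp : p.Prime) (hp2 : p ≠ 2) (hn : (orderOf (2 : ZMod p)).Coprime 6)
    {a b : ℕ} (hab : p ∣ 2 ^ a + 2 ^ b + 1) (hS : ¬ (p : ℤ) ∣ S (orderOf (2 : ZMod p))) :
    (3 * p : ℝ) < (73 / 50) ^ orderOf (2 : ZMod p) := by
  have := Fact.mk hp
  set n := orderOf (2 : ZMod p) with hndef
  have h2ne : (2 : ZMod p) ≠ 0 := by
    intro h0
    have h1 : ((2 : ℕ) : ZMod p) = 0 := by exact_mod_cast h0
    rw [ZMod.natCast_eq_zero_iff] at h1
    exact hp2 ((Nat.prime_dvd_prime_iff_eq hp Nat.prime_two).1 h1)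
  have hn0 : 0 < n := by
    rw [hndef]
    exact orderOf_pos_iff.2 (isOfFinOrder_iff_pow_eq_one.2
      ⟨p - 1, by have := hp.two_le; omega, ZMod.pow_card_sub_one_eq_one h2ne⟩)
  have h2n : (2 : ZMod p) ^ n = 1 := pow_orderOf_eq_one _
  have hn2 : n.Coprime 2 := Nat.Coprime.coprime_dvd_right (by norm_num) hn
  have hn3 : n.Coprime 3 := Nat.Coprime.coprime_dvd_right (by norm_num) hn
  have hodd : Odd n := Nat.coprime_two_right.1 hn2
  -- p ≠ 3
  have hp3 : p ≠ 3 := by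
    intro h3
    have h1 : (2 : ZMod p) ^ 2 = 1 := by
      have : ((3 : ℕ) : ZMod p) = 0 := by rw [← h3]; exact ZMod.natCast_self p
      have h' : (3 : ZMod p) = 0 := by exact_mod_cast this
      linear_combination h'
    have h2' : n ∣ 1 := by
      have h4 := Nat.dvd_gcd (dvd_refl n) (orderOf_dvd_of_pow_eq_one h1)
      rwa [hn2] at h4
    have h5 : (2 : ZMod p) ^ 1 = 1 := orderOf_dvd_iff_pow_eq_one.1 h2'
    have h6 : (1 : ZMod p) = 0 := by linear_combination h5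
    exact one_ne_zero h6
  have hn1 : n ≠ 1 := by
    intro h1
    rw [h1] at h2n
    have h6 : (1 : ZMod p) = 0 := by linear_combination h2n
    exact one_ne_zero h6
  have hn5 : 5 ≤ n := by
    by_contra hlt
    have : n = 2 ∨ n = 3 ∨ n = 4 := by omega
    rcases this with h | h | h <;> rw [h] at hn <;> revert hn <;> decide
  have habK : (1 : ZMod p) + 2 ^ a + 2 ^ b = 0 := by
    have h1 : ((2 ^ a + 2 ^ b + 1 : ℕ) : ZMod p) = 0 := (ZMod.natCast_eq_zero_iff _ _).2 hab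
    push_cast at h1
    linear_combination h1
  have hxn : ((2 : ZMod p) ^ a) ^ n = 1 := by rw [← pow_mul, mul_comm, pow_mul, h2n, one_pow]
  have hyn : ((2 : ZMod p) ^ b) ^ n = 1 := by rw [← pow_mul, mul_comm, pow_mul, h2n, one_pow]
  have hcop : IsCoprime (3 : ℤ) (p : ℤ) := by
    have : Nat.Coprime 3 p := (Nat.coprime_primes Nat.prime_three hp).2 (Ne.symm hp3)
    exact_mod_cast Nat.isCoprime_iff_coprime.2 this
  have hc : ∀ w : ZMod p, w ^ n = 1 → w ^ 3 + w + 1 ≠ 0 := by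
    intro w hw1 hw2
    apply hS
    have h1 : ((S n : ℤ) : ZMod p) = 0 := cubic_zero hw2 hodd hw1
    exact (ZMod.intCast_zmod_eq_zero_iff_dvd _ _).1 h1
  have hgen : Generic n a b := by
    intro u v hu hv huv hd
    apply rel hp2 hp3 hn h2n hxn hyn habK hc u v hu hv huv
    obtain ⟨c, hc⟩ := hd
    have h1 : ((2 : ZMod p) ^ a) ^ u * ((2 : ZMod p) ^ b) ^ v =
        (2 : ZMod p) ^ (u * a + v * b) := by
      rw [zpow_add₀ h2ne, mul_comm u, mul_comm v, zpow_mul, zpow_mul, zpow_natCast,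
        zpow_natCast]
    rw [h1, hc, zpow_mul, zpow_natCast, h2n, one_zpow]
  obtain ⟨hd0, hdlt⟩ := det_bound hn0 hn3 hgen
  have hprim : IsPrimitiveRoot (2 : ZMod p) n := IsPrimitiveRoot.orderOf _
  have hdet := det_circ hprim a b
  have hzero : (((circ n a b).det : ℤ) : ZMod p) = 0 := by
    rw [hdet]
    apply Finset.prod_eq_zero (Finset.mem_univ (⟨1, by omega⟩ : Fin n))
    simp only [pow_one]
    exact habK
  have hdvd : (p : ℤ) ∣ (circ n a b).det := (ZMod.intCast_zmod_eq_zero_iff_dvd _ _).1 hzero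
  have hdvd3 : (3 : ℤ) * p ∣ (circ n a b).det := hcop.mul_dvd (three_dvd_det hn0 a b) hdvd
  have hle : (3 : ℤ) * p ≤ |(circ n a b).det| := by
    exact Int.le_of_dvd (abs_pos.2 hd0) ((dvd_abs _ _).2 hdvd3)
  have hle' : (3 * p : ℝ) ≤ |((circ n a b).det : ℝ)| := by
    have : (((3 : ℤ) * p : ℤ) : ℝ) ≤ ((|(circ n a b).det| : ℤ) : ℝ) := by exact_mod_cast hle
    simpa using this
  exact lt_of_le_of_lt hle' hdlt

theorem easy {p : ℕ} (hp : p.Prime) (hp2 : p ≠ 2) (hn : ¬ (orderOf (2 : ZMod p)).Coprime 6) :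
    ∃ a b : ℕ, 1 ≤ a ∧ 1 ≤ b ∧ p ∣ 2 ^ a + 2 ^ b + 1 := by
  have := Fact.mk hp
  set n := orderOf (2 : ZMod p) with hndef
  have h2ne : (2 : ZMod p) ≠ 0 := by
    intro h0
    have h1 : ((2 : ℕ) : ZMod p) = 0 := by exact_mod_cast h0
    rw [ZMod.natCast_eq_zero_iff] at h1
    exact hp2 ((Nat.prime_dvd_prime_iff_eq hp Nat.prime_two).1 h1)
  have hn0 : 0 < n := by
    rw [hndef]
    exact orderOf_pos_iff.2 (isOfFinOrder_iff_pow_eq_one.2
      ⟨p - 1, by have := hp.two_le; omega, ZMod.pow_card_sub_one_eq_one h2ne⟩)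
  have h2n : (2 : ZMod p) ^ n = 1 := pow_orderOf_eq_one _
  have hcases : 2 ∣ n ∨ 3 ∣ n := by
    by_contra hcon
    push Not at hcon
    apply hn
    have h2 : Nat.Coprime n 2 := ((Nat.Prime.coprime_iff_not_dvd Nat.prime_two).2 hcon.1).symm
    have h3 : Nat.Coprime n 3 := ((Nat.Prime.coprime_iff_not_dvd Nat.prime_three).2 hcon.2).symm
    exact Nat.Coprime.mul_right h2 h3
  rcases hcases with ⟨m, hm⟩ | ⟨m, hm⟩
  · have hm0 : 0 < m := by omega
    have hne : (2 : ZMod p) ^ m ≠ 1 := by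
      intro h1
      have := Nat.le_of_dvd hm0 (orderOf_dvd_of_pow_eq_one h1)
      omega
    have hsq : ((2 : ZMod p) ^ m - 1) * ((2 : ZMod p) ^ m + 1) = 0 := by
      have : ((2 : ZMod p) ^ m) ^ 2 = 1 := by rw [← pow_mul, mul_comm, ← hm, h2n]
      linear_combination this
    have hneg : (2 : ZMod p) ^ m + 1 = 0 := by
      rcases mul_eq_zero.1 hsq with h | h
      · exact absurd (sub_eq_zero.1 h) hne
      · exact h
    refine ⟨m + 1, 2 * m, by omega, by omega, ?_⟩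
    rw [← ZMod.natCast_eq_zero_iff]
    push_cast
    have : (2 : ZMod p) ^ (2 * m) = 1 := by rw [← hm, h2n]
    rw [this, pow_succ]
    linear_combination 2 * hneg
  · have hm0 : 0 < m := by omega
    have hne : (2 : ZMod p) ^ m ≠ 1 := by
      intro h1
      have := Nat.le_of_dvd hm0 (orderOf_dvd_of_pow_eq_one h1)
      omega
    have hcu : ((2 : ZMod p) ^ m - 1) * ((2 : ZMod p) ^ m + (2 : ZMod p) ^ (2 * m) + 1) = 0 := by
      have : ((2 : ZMod p) ^ m) ^ 3 = 1 := by rw [← pow_mul, mul_comm, ← hm, h2n]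
      rw [mul_comm 2 m, pow_mul]
      linear_combination this
    refine ⟨m, 2 * m, by omega, by omega, ?_⟩
    rw [← ZMod.natCast_eq_zero_iff]
    push_cast
    rcases mul_eq_zero.1 hcu with h | h
    · exact absurd (sub_eq_zero.1 h) hne
    · exact h

theorem main {p : ℕ} (hp : p.Prime) (hp2 : p ≠ 2)
    (hle : (73 / 50 : ℝ) ^ orderOf (2 : ZMod p) ≤ 3 * p) :
    (∃ a b : ℕ, 1 ≤ a ∧ 1 ≤ b ∧ p ∣ 2 ^ a + 2 ^ b + 1) ↔
      (¬ (orderOf (2 : ZMod p)).Coprime 6 ∨ (p : ℤ) ∣ S (orderOf (2 : ZMod p))) := by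
  constructor
  · rintro ⟨a, b, -, -, h⟩
    by_contra hcon
    push Not at hcon
    exact absurd (prime_lt hp hp2 hcon.1 h hcon.2) (not_lt.2 hle)
  · intro h
    by_cases hc : (orderOf (2 : ZMod p)).Coprime 6
    · rcases h with h | h
      · exact absurd hc h
      · have hn2 : (orderOf (2 : ZMod p)).Coprime 2 :=
          Nat.Coprime.coprime_dvd_right (by norm_num) hc
        exact exists_of_dvd_S hp (Nat.coprime_two_right.1 hn2) (IsPrimitiveRoot.orderOf _) h
    · exact easy hp hp2 hc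

end Pool.Agent.Lib.MP_33899d_ntN
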