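import Pool.Agent.Lib.MP_33899d_ntN.MomentFour
import Pool.Agent.Lib.MP_33899d_ntN.Coef

/-!
# All moments

Proof of `moment_eq`: `(1 + x + y) ^ j = ∑ i, l < 9, cc j i l * x ^ i * y ^ l` for `j ≤ 8`
(`interval_cases j` and `simp [Finset.sum_range_succ, cc, ch]; ring`, or from the binomial
theorem), then the expansion of `‖∑ ...‖ ^ 2` as in the proof of `parseval_ge` in
`MomentFour.lean` (index set `range 9 × range 9`, exponents `i a + l b`), the inner sum over `k`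
being `n` if `n ∣ (i - i') a + (l - l') b` and `0` otherwise (as in `Parseval.lean`).
-/

namespace Pool.Agent.Lib.MP_33899d_ntN

open Classical in
/-- The indicator of the relations. -/
noncomputable def ind (n a b : ℕ) (u v : ℤ) : ℝ := if (n : ℤ) ∣ u * a + v * b then 1 else 0

/-- The sum of the powers of an `n`-th root of unity. -/
private theorem geom_all {n : ℕ} {r : ℂ} (hr : r ^ n = 1) :
    ∑ k : Fin n, r ^ (k : ℕ) = if r = 1 then (n : ℂ) else 0 := by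
  rw [Fin.sum_univ_eq_sum_range (fun k => r ^ k) n]
  split_ifs with h
  · subst h
    simp
  · have h1 := geom_sum_mul r n
    rw [hr, sub_self] at h1
    exact (mul_eq_zero.1 h1).resolve_right (sub_ne_zero.2 h)

open Classical in
private theorem parseval_all {n : ℕ} (hn : 0 < n) {ζ : ℂ} (hζ : IsPrimitiveRoot ζ n)
    {ι : Type*} (s : Finset ι) (c : ι → ℝ) (e : ι → ℕ) :
    ∑ k : Fin n, ‖∑ i ∈ s, (c i : ℂ) * (ζ ^ (k : ℕ)) ^ (e i)‖ ^ 2 =
      n * ∑ i ∈ s, ∑ j ∈ s, c i * c j * (if (n : ℤ) ∣ (e i : ℤ) - e j then 1 else 0) := by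
  have hz0 : ζ ≠ 0 := hζ.ne_zero hn.ne'
  have hnorm : ‖ζ‖ = 1 := Complex.norm_eq_one_of_pow_eq_one hζ.pow_eq_one hn.ne'
  have hconj : (starRingEnd ℂ) ζ = ζ⁻¹ := by
    rw [Complex.inv_def, Complex.normSq_eq_norm_sq, hnorm]
    simp
  have hterm : ∀ k : Fin n,
      ((‖∑ i ∈ s, (c i : ℂ) * (ζ ^ (k : ℕ)) ^ (e i)‖ ^ 2 : ℝ) : ℂ) =
        ∑ i ∈ s, ∑ j ∈ s, (c i : ℂ) * (c j : ℂ) *
          (ζ ^ (e i) * (ζ⁻¹) ^ (e j)) ^ (k : ℕ) := by
    intro k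
    rw [Complex.ofReal_pow, ← Complex.mul_conj', map_sum, Finset.sum_mul_sum]
    refine Finset.sum_congr rfl fun i _ => Finset.sum_congr rfl fun j _ => ?_
    rw [map_mul, map_pow, map_pow, hconj, Complex.conj_ofReal, mul_pow, ← pow_mul, ← pow_mul,
      ← pow_mul, ← pow_mul, mul_comm (k : ℕ) (e i), mul_comm (k : ℕ) (e j)]
    ring
  have hr : ∀ i j : ι, (ζ ^ (e i) * (ζ⁻¹) ^ (e j)) ^ n = 1 := by
    intro i j
    rw [mul_pow, ← pow_mul, ← pow_mul, mul_comm (e i), mul_comm (e j), pow_mul, pow_mul,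
      inv_pow, hζ.pow_eq_one, inv_one, one_pow, one_pow, mul_one]
  have hone : ∀ i j : ι, ζ ^ (e i) * (ζ⁻¹) ^ (e j) = 1 ↔ (n : ℤ) ∣ (e i : ℤ) - e j := by
    intro i j
    rw [← hζ.zpow_eq_one_iff_dvd, zpow_sub₀ hz0, zpow_natCast, zpow_natCast, inv_pow,
      div_eq_mul_inv]
  have hC : ((∑ k : Fin n, ‖∑ i ∈ s, (c i : ℂ) * (ζ ^ (k : ℕ)) ^ (e i)‖ ^ 2 : ℝ) : ℂ) =
      ((n * ∑ i ∈ s, ∑ j ∈ s, c i * c j *
        (if (n : ℤ) ∣ (e i : ℤ) - e j then 1 else 0) : ℝ) : ℂ) := by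
    rw [Complex.ofReal_sum]
    simp_rw [hterm]
    rw [Finset.sum_comm]
    push_cast
    rw [Finset.mul_sum]
    refine Finset.sum_congr rfl fun i _ => ?_
    rw [Finset.sum_comm, Finset.mul_sum]
    refine Finset.sum_congr rfl fun j _ => ?_
    rw [← Finset.mul_sum, geom_all (hr i j)]
    by_cases h : (n : ℤ) ∣ (e i : ℤ) - e j
    · rw [if_pos ((hone i j).2 h), if_pos h]
      push_cast
      ring
    · rw [if_neg fun h' => h ((hone i j).1 h'), if_neg h]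
      push_cast
      ring
  exact_mod_cast hC

private theorem expand_all (x y : ℂ) {j : ℕ} (hj : j < 9) : (1 + x + y) ^ j =
    ∑ i ∈ Finset.range 9, ∑ l ∈ Finset.range 9, ((cc j i l : ℝ) : ℂ) * (x ^ i * y ^ l) := by
  interval_cases j <;> simp [Finset.sum_range_succ, cc, ch] <;> ring

theorem moment_eq {n : ℕ} (hn : 0 < n) {ζ : ℂ} (hζ : IsPrimitiveRoot ζ n) (a b : ℕ) {j : ℕ}
    (hj : j < 9) :
    ∑ k : Fin n, (‖1 + (ζ ^ (k : ℕ)) ^ a + (ζ ^ (k : ℕ)) ^ b‖ ^ 2) ^ j =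
      n * ∑ i ∈ Finset.range 9, ∑ l ∈ Finset.range 9, ∑ i' ∈ Finset.range 9,
        ∑ l' ∈ Finset.range 9, ((cc j i l * cc j i' l' : ℤ) : ℝ) *
          ind n a b ((i : ℤ) - i') ((l : ℤ) - l') := by
  have h := parseval_all hn hζ (Finset.range 9 ×ˢ Finset.range 9)
    (fun p => (cc j p.1 p.2 : ℝ)) (fun p => p.1 * a + p.2 * b)
  have h1 : ∑ k : Fin n, (‖1 + (ζ ^ (k : ℕ)) ^ a + (ζ ^ (k : ℕ)) ^ b‖ ^ 2) ^ j =
      ∑ k : Fin n, ‖∑ p ∈ Finset.range 9 ×ˢ Finset.range 9,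
        (((cc j p.1 p.2 : ℤ) : ℝ) : ℂ) * (ζ ^ (k : ℕ)) ^ (p.1 * a + p.2 * b)‖ ^ 2 := by
    refine Finset.sum_congr rfl fun k _ => ?_
    have h4 : (‖1 + (ζ ^ (k : ℕ)) ^ a + (ζ ^ (k : ℕ)) ^ b‖ ^ 2) ^ j =
        ‖(1 + (ζ ^ (k : ℕ)) ^ a + (ζ ^ (k : ℕ)) ^ b) ^ j‖ ^ 2 := by
      rw [norm_pow, ← pow_mul _ 2 j, ← pow_mul _ j 2, mul_comm 2 j]
    rw [h4, expand_all _ _ hj, Finset.sum_product]
    congr 2
    refine Finset.sum_congr rfl fun i _ => Finset.sum_congr rfl fun l _ => ?_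
    rw [pow_add, mul_comm i a, mul_comm l b, pow_mul _ a _, pow_mul _ b _]
  rw [h1, h, Finset.sum_product]
  congr 1
  refine Finset.sum_congr rfl fun i _ => Finset.sum_congr rfl fun l _ => ?_
  rw [Finset.sum_product]
  refine Finset.sum_congr rfl fun i' _ => Finset.sum_congr rfl fun l' _ => ?_
  have h5 : ((i * a + l * b : ℕ) : ℤ) - ((i' * a + l' * b : ℕ) : ℤ) =
      ((i : ℤ) - i') * a + ((l : ℤ) - l') * b := by
    push_cast
    ring
  simp only [ind, h5]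
  push_cast
  rfl

end Pool.Agent.Lib.MP_33899d_ntN
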