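import Pool.Agent.Lib.MP_33899d_ntN.Coef

/-!
# Regrouping pairs of monomials by their difference

Proof of `regroup`: write `FZ` and `GG` with `Finset.sum` over `Finset.range 9` (`sumTo` is
`Finset.sum` over `range`: induction).  For fixed `(i, l)` the inner sum over `(i', l')` in
`range 9 × range 9` equals the sum over `(u, v)` in `Icc (-8) 8 × Icc (-8) 8` of the terms with
`i' = i - u`, `l' = l - v` in range (`Finset.sum_bij'` or `Finset.sum_nbij'`,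
`u = i - i'`, `v = l - l'`), and `φ` only depends on `(i - i', l - l')`.  Then swap the sums.
-/

namespace Pool.Agent.Lib.MP_33899d_ntN

theorem sumTo_eq (f : ℕ → ℤ) (n : ℕ) : sumTo f n = ∑ i ∈ Finset.range n, f i := by
  induction n with
  | zero => rfl
  | succ n ih => rw [Finset.sum_range_succ, ← ih]; rfl

private theorem Regroup_one {i : ℕ} (hi : i < 9) (h : ℕ → ℤ → ℝ) :
    ∑ i' ∈ Finset.range 9, h i' ((i : ℤ) - i') =
      ∑ u ∈ Finset.Icc (-8 : ℤ) 8,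
        if 0 ≤ (i : ℤ) - u ∧ (i : ℤ) - u ≤ 8 then h ((i : ℤ) - u).toNat u else 0 := by
  rw [← Finset.sum_filter]
  refine Finset.sum_nbij' (fun i' => (i : ℤ) - i') (fun u => ((i : ℤ) - u).toNat) ?_ ?_ ?_ ?_ ?_
  · intro a ha
    rw [Finset.mem_range] at ha
    rw [Finset.mem_filter, Finset.mem_Icc]
    omega
  · intro u hu
    rw [Finset.mem_filter, Finset.mem_Icc] at hu
    rw [Finset.mem_range]
    omega
  · intro a ha
    show ((i : ℤ) - ((i : ℤ) - a)).toNat = a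
    omega
  · intro u hu
    rw [Finset.mem_filter, Finset.mem_Icc] at hu
    show (i : ℤ) - (((i : ℤ) - u).toNat : ℕ) = u
    omega
  · intro a ha
    have e : ((i : ℤ) - ((i : ℤ) - a)).toNat = a := by omega
    show h a ((i : ℤ) - a) = h ((i : ℤ) - ((i : ℤ) - a)).toNat ((i : ℤ) - a)
    rw [e]

private theorem Regroup_two {i l : ℕ} (hi : i < 9) (hl : l < 9) (φ : ℤ → ℤ → ℝ) :
    ∑ i' ∈ Finset.range 9, ∑ l' ∈ Finset.range 9,
      (GG i l i' l' : ℝ) * φ ((i : ℤ) - i') ((l : ℤ) - l') =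
    ∑ u ∈ Finset.Icc (-8 : ℤ) 8, ∑ v ∈ Finset.Icc (-8 : ℤ) 8, (FT u v i l : ℝ) * φ u v := by
  rw [Regroup_one hi (fun i' u => ∑ l' ∈ Finset.range 9, (GG i l i' l' : ℝ) * φ u ((l : ℤ) - l'))]
  refine Finset.sum_congr rfl fun u _ => ?_
  rw [Regroup_one hl (fun l' v => (GG i l ((i : ℤ) - u).toNat l' : ℝ) * φ u v)]
  by_cases hu : 0 ≤ (i : ℤ) - u ∧ (i : ℤ) - u ≤ 8
  · rw [if_pos hu]
    refine Finset.sum_congr rfl fun v _ => ?_
    unfold FT
    by_cases hv : 0 ≤ (l : ℤ) - v ∧ (l : ℤ) - v ≤ 8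
    · rw [if_pos hv, if_pos ⟨hu.1, hv.1, hu.2, hv.2⟩]
    · rw [if_neg hv, if_neg (fun h => hv ⟨h.2.1, h.2.2.2⟩), Int.cast_zero, zero_mul]
  · rw [if_neg hu]
    symm
    refine Finset.sum_eq_zero fun v _ => ?_
    unfold FT
    rw [if_neg (fun h => hu ⟨h.1, h.2.2.1⟩), Int.cast_zero, zero_mul]

theorem regroup (φ : ℤ → ℤ → ℝ) :
    ∑ i ∈ Finset.range 9, ∑ l ∈ Finset.range 9, ∑ i' ∈ Finset.range 9, ∑ l' ∈ Finset.range 9,
      (GG i l i' l' : ℝ) * φ ((i : ℤ) - i') ((l : ℤ) - l') =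
    ∑ u ∈ Finset.Icc (-8 : ℤ) 8, ∑ v ∈ Finset.Icc (-8 : ℤ) 8, (FZ u v : ℝ) * φ u v := by
  have h1 : ∀ i ∈ Finset.range 9, ∀ l ∈ Finset.range 9,
      ∑ i' ∈ Finset.range 9, ∑ l' ∈ Finset.range 9,
        (GG i l i' l' : ℝ) * φ ((i : ℤ) - i') ((l : ℤ) - l') =
      ∑ u ∈ Finset.Icc (-8 : ℤ) 8, ∑ v ∈ Finset.Icc (-8 : ℤ) 8, (FT u v i l : ℝ) * φ u v :=
    fun i hi l hl => Regroup_two (Finset.mem_range.1 hi) (Finset.mem_range.1 hl) φ
  rw [Finset.sum_congr rfl fun i hi => Finset.sum_congr rfl fun l hl => h1 i hi l hl]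
  have h2 : ∀ u v : ℤ, (FZ u v : ℝ) * φ u v =
      ∑ i ∈ Finset.range 9, ∑ l ∈ Finset.range 9, (FT u v i l : ℝ) * φ u v := by
    intro u v
    unfold FZ
    rw [sumTo_eq, Int.cast_sum, Finset.sum_mul]
    refine Finset.sum_congr rfl fun i _ => ?_
    rw [sumTo_eq, Int.cast_sum, Finset.sum_mul]
  rw [Finset.sum_congr rfl fun u _ => Finset.sum_congr rfl fun v _ => h2 u v]
  have h3 : ∀ i : ℕ, ∑ l ∈ Finset.range 9, ∑ u ∈ Finset.Icc (-8 : ℤ) 8,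
      ∑ v ∈ Finset.Icc (-8 : ℤ) 8, (FT u v i l : ℝ) * φ u v =
      ∑ u ∈ Finset.Icc (-8 : ℤ) 8, ∑ v ∈ Finset.Icc (-8 : ℤ) 8, ∑ l ∈ Finset.range 9,
        (FT u v i l : ℝ) * φ u v := by
    intro i
    rw [Finset.sum_comm]
    exact Finset.sum_congr rfl fun u _ => Finset.sum_comm
  rw [Finset.sum_congr rfl fun i _ => h3 i, Finset.sum_comm]
  exact Finset.sum_congr rfl fun u _ => Finset.sum_comm

end Pool.Agent.Lib.MP_33899d_ntN
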