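import Pool.Agent.Lib.MP_33899d_ntN.Coef

/-!
# The bad relations modulo `p`

Proof of `relC`: `Bad u v` is a finite disjunction (56 pairs, `|u|, |v| ≤ 6`); in each case derive
a contradiction from `h : x ^ u * y ^ v = 1`.  `K = ZMod p`, `n` odd; `x, y ≠ 0`.
* type `0 1 1`: `x = 1`: then `y = -2`, so `1 = y ^ n = - 2 ^ n = -1`, contradiction as `p ≠ 2`;
  same for `y = 1`; `x = y`: `2 x = -1`, so `2 ^ n * x ^ n = (-1) ^ n = -1`.
* type `0 4 4`: `w ^ 4 = 1` and `w ^ n = 1`, `n` odd, give `w = 1` (`w = x`, `y`, `x / y`).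
* type `1 2 3` (`h3`): `x ^ 2 y = 1` (`w = x⁻¹`), `x y ^ 2 = 1` (`w = y⁻¹`), `x = y ^ 3` (`w = y`),
  `y = x ^ 3` (`w = x`), `x ^ 3 = y ^ 2` (`w = x / y`), `x ^ 2 = y ^ 3` (`w = y / x`).
* type `2 3 5` (`h5`, `w ^ 5 + w ^ 2 + 1 = 0`): `x ^ 5 = y ^ 2` (`w = y / x ^ 2`, `x = w ^ 2`,
  `y = w ^ 5`), `y ^ 5 = x ^ 2` (`w = x / y ^ 2`), `x ^ 2 y ^ 3 = 1` (`w = x y`, `x = w ^ 3`,
  `y = w⁻²`), `x ^ 3 y ^ 2 = 1` (`w = x y`), `x ^ 3 = y ^ 5` (`x = z ^ 5`, `y = z ^ 3`,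
  `z = x ^ 2 / y ^ 3`, `w = z⁻¹`), `y ^ 3 = x ^ 5` (`z = y ^ 2 / x ^ 3`, `w = z⁻¹`).
* type `1 5 6` (`h6`, `w ^ 6 + w + 1 = 0`): `x y ^ 5 = 1` (`w = y⁻¹`), `x ^ 5 y = 1` (`w = x⁻¹`),
  `x = y ^ 6` (`w = y`), `y = x ^ 6` (`w = x`), `x ^ 5 = y ^ 6` (`x = z ^ 6`, `y = z ^ 5`,
  `z = x / y`, `w = z⁻¹`), `y ^ 5 = x ^ 6` (`z = y / x`, `w = z⁻¹`).
-/

namespace Pool.Agent.Lib.MP_33899d_ntN

private theorem relC_out {K : Type*} [Field K] {n : ℕ} {x y : K} (hx0 : x ≠ 0) (hy0 : y ≠ 0)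
    (hx : x ^ n = 1) (hy : y ^ n = 1) (hxy : 1 + x + y = 0) {p q : ℕ}
    (H : ∀ a b c : K, a ≠ 0 → b ≠ 0 → c ≠ 0 → a ^ n = 1 → b ^ n = 1 → c ^ n = 1 →
      a + b + c = 0 → a ^ p * b ^ q ≠ c ^ (p + q))
    {u v : ℤ} (ht : Typ u v p q (p + q)) (h : x ^ u * y ^ v = 1) : False := by
  have h1n : (1 : K) ^ n = 1 := one_pow n
  have h10 : (1 : K) ≠ 0 := one_ne_zero
  have s1 : ∀ s t : ℕ, ((u = s ∧ v = t) ∨ (u = -s ∧ v = -t)) → x ^ s * y ^ t = 1 := by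
    rintro s t (⟨rfl, rfl⟩ | ⟨rfl, rfl⟩)
    · simpa using h
    · rw [zpow_neg, zpow_neg, ← mul_inv, inv_eq_one] at h
      simpa using h
  have s2 : ∀ s t : ℕ, ((u = s ∧ v = -t) ∨ (u = -s ∧ v = t)) → x ^ s = y ^ t := by
    rintro s t (⟨rfl, rfl⟩ | ⟨rfl, rfl⟩)
    · rw [zpow_neg, mul_inv_eq_one₀ (zpow_ne_zero _ hy0)] at h
      simpa using h
    · rw [zpow_neg, inv_mul_eq_one₀ (zpow_ne_zero _ hx0)] at h
      simpa using h
  rcases ht with ⟨a1, a2, a3⟩ | ⟨a1, a2, a3⟩ | ⟨a1, a2, a3⟩ | ⟨a1, a2, a3⟩ | ⟨a1, a2, a3⟩ |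
    ⟨a1, a2, a3⟩
  · refine H x y 1 hx0 hy0 h10 hx hy h1n (by linear_combination hxy) ?_
    rw [s1 p q (by omega), one_pow]
  · refine H x 1 y hx0 h10 hy0 hx h1n hy (by linear_combination hxy) ?_
    rw [s2 p (p + q) (by omega), one_pow, mul_one]
  · refine H y x 1 hy0 hx0 h10 hy hx h1n (by linear_combination hxy) ?_
    rw [mul_comm, s1 q p (by omega), one_pow]
  · refine H 1 x y h10 hx0 hy0 h1n hx hy (by linear_combination hxy) ?_
    rw [s2 q (p + q) (by omega), one_pow, one_mul]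
  · refine H y 1 x hy0 h10 hx0 hy h1n hx (by linear_combination hxy) ?_
    rw [← s2 (p + q) p (by omega), one_pow, mul_one]
  · refine H 1 y x h10 hy0 hx0 h1n hy hx (by linear_combination hxy) ?_
    rw [← s2 (p + q) q (by omega), one_pow, one_mul]

private theorem relC_eq {p : ℕ} [Fact p.Prime] (hp2 : p ≠ 2) {n : ℕ} (hn : Odd n)
    (h2 : (2 : ZMod p) ^ n = 1) {a b c : ZMod p} (ha : a ^ n = 1) (hb : b ^ n = 1)
    (hs : a + b + c = 0) (h : b = c) : False := by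
  have e2 : (2 : ZMod p) ≠ 0 := by
    intro h
    have h' : ((2 : ℕ) : ZMod p) = 0 := by exact_mod_cast h
    rw [ZMod.natCast_eq_zero_iff] at h'
    exact hp2 ((Nat.prime_dvd_prime_iff_eq Fact.out Nat.prime_two).1 h')
  have h3 : a = -(2 * b) := by
    rw [← h] at hs
    linear_combination hs
  rw [h3, hn.neg_pow, mul_pow, h2, hb] at ha
  exact e2 (by linear_combination -ha)

theorem relC {p : ℕ} [Fact p.Prime] (hp2 : p ≠ 2) {n : ℕ} (hn : Odd n)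
    (h2 : (2 : ZMod p) ^ n = 1) {x y : ZMod p} (hx : x ^ n = 1) (hy : y ^ n = 1)
    (hxy : 1 + x + y = 0)
    (h3 : ∀ w : ZMod p, w ^ n = 1 → w ^ 3 + w + 1 ≠ 0)
    (h5 : ∀ w : ZMod p, w ^ n = 1 → w ^ 5 + w ^ 2 + 1 ≠ 0)
    (h6 : ∀ w : ZMod p, w ^ n = 1 → w ^ 6 + w + 1 ≠ 0)
    (u v : ℤ) (hb : Bad u v) (h : x ^ u * y ^ v = 1) : False := by
  have hn0 : n ≠ 0 := by
    rintro rfl
    exact absurd hn (by decide)
  have hx0 : x ≠ 0 := by
    rintro rfl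
    rw [zero_pow hn0] at hx
    exact zero_ne_one hx
  have hy0 : y ≠ 0 := by
    rintro rfl
    rw [zero_pow hn0] at hy
    exact zero_ne_one hy
  rcases hb with hb | hb | hb | hb | hb
  · refine relC_out (p := 0) (q := 1) hx0 hy0 hx hy hxy ?_ hb h
    intro a b c _ _ _ ha hb' _ hs he
    exact relC_eq hp2 hn h2 ha hb' hs (by simpa using he)
  · refine relC_out (p := 0) (q := 4) hx0 hy0 hx hy hxy ?_ hb h
    intro a b c _ _ hc0 ha hb' hc' hs he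
    have he' : b ^ 4 = c ^ 4 := by simpa using he
    have hw : (b / c) ^ n = 1 := by rw [div_pow, hb', hc', div_one]
    have hw4 : (b / c) ^ 4 = 1 := by rw [div_pow, he', div_self (pow_ne_zero 4 hc0)]
    have hg : n.gcd 4 = 1 := by
      have : n.Coprime (2 ^ 2) := (Nat.coprime_two_right.2 hn).pow_right 2
      exact this
    have h1 : b / c = 1 := by
      have := pow_gcd_eq_one.2 ⟨hw, hw4⟩
      rwa [hg, pow_one] at this
    exact relC_eq hp2 hn h2 ha hb' hs ((div_eq_one_iff_eq hc0).1 h1)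
  · refine relC_out (p := 1) (q := 2) hx0 hy0 hx hy hxy ?_ hb h
    intro a b c _ hb0 _ _ hb' hc' hs he
    refine h3 (c / b) (by rw [div_pow, hb', hc', div_one]) ?_
    have : b ^ 3 * ((c / b) ^ 3 + c / b + 1) = 0 := by
      have h7 : b ^ 3 * ((c / b) ^ 3 + c / b + 1) = c ^ 3 + c * b ^ 2 + b ^ 3 := by
        field_simp
      rw [h7]
      linear_combination b ^ 2 * hs - he
    exact (mul_eq_zero.1 this).resolve_left (pow_ne_zero 3 hb0)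
  · refine relC_out (p := 2) (q := 3) hx0 hy0 hx hy hxy ?_ hb h
    intro a b c ha0 hb0 hc0 ha hb' hc' hs he
    refine h5 (a * b / c ^ 2) ?_ ?_
    · rw [div_pow, mul_pow, ha, hb', ← pow_mul, mul_comm 2 n, pow_mul, hc', one_pow, one_mul,
        div_one]
    · have he' : a ^ 2 * b ^ 3 = c ^ 5 := he
      have : c ^ 10 * ((a * b / c ^ 2) ^ 5 + (a * b / c ^ 2) ^ 2 + 1) = 0 := by
        have h7 : c ^ 10 * ((a * b / c ^ 2) ^ 5 + (a * b / c ^ 2) ^ 2 + 1) =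
            a ^ 5 * b ^ 5 + a ^ 2 * b ^ 2 * c ^ 6 + c ^ 10 := by
          field_simp
        rw [h7]
        have h8 : b * (a ^ 5 * b ^ 5 + a ^ 2 * b ^ 2 * c ^ 6 + c ^ 10) = 0 := by
          linear_combination c ^ 10 * hs + (a * (a ^ 2 * b ^ 3 + c ^ 5) + c ^ 6) * he'
        exact (mul_eq_zero.1 h8).resolve_left hb0
      exact (mul_eq_zero.1 this).resolve_left (pow_ne_zero 10 hc0)
  · refine relC_out (p := 1) (q := 5) hx0 hy0 hx hy hxy ?_ hb h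
    intro a b c _ hb0 _ _ hb' hc' hs he
    refine h6 (c / b) (by rw [div_pow, hb', hc', div_one]) ?_
    have : b ^ 6 * ((c / b) ^ 6 + c / b + 1) = 0 := by
      have h7 : b ^ 6 * ((c / b) ^ 6 + c / b + 1) = c ^ 6 + c * b ^ 5 + b ^ 6 := by
        field_simp
      rw [h7]
      linear_combination b ^ 5 * hs - he
    exact (mul_eq_zero.1 this).resolve_left (pow_ne_zero 6 hb0)

end Pool.Agent.Lib.MP_33899d_ntN
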