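import Pool.Agent.Lib.MP_33899d_ntN.Coef

/-!
# The signs of the coefficients

`table` is a finite check (289 pairs, each a sum of at most 81 terms) in the kernel;
`37734278277237 / 54460607040000 = 0.692872... < log 2`.
-/

namespace Pool.Agent.Lib.MP_33899d_ntN

private theorem table_fin : ∀ i j : Fin 17,
    (((i : ℕ) : ℤ) - 8 = 0 ∧ ((j : ℕ) : ℤ) - 8 = 0) ∨ Bad (((i : ℕ) : ℤ) - 8) (((j : ℕ) : ℤ) - 8) ∨
      FZ (((i : ℕ) : ℤ) - 8) (((j : ℕ) : ℤ) - 8) ≤ 0 := by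
  decide +kernel

theorem table (u v : ℤ) (hu : |u| ≤ 8) (hv : |v| ≤ 8) :
    (u = 0 ∧ v = 0) ∨ Bad u v ∨ FZ u v ≤ 0 := by
  rw [abs_le] at hu hv
  have h := table_fin ⟨(u + 8).toNat, by omega⟩ ⟨(v + 8).toNat, by omega⟩
  have h1 : (((u + 8).toNat : ℕ) : ℤ) - 8 = u := by omega
  have h2 : (((v + 8).toNat : ℕ) : ℤ) - 8 = v := by omega
  simpa only [h1, h2] using h

theorem FZ_zero : FZ 0 0 = 37734278277237 := by
  decide +kernel

theorem beta_lt : (FZ 0 0 : ℝ) / coL < Real.log 2 := by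
  rw [FZ_zero]
  have h := Real.log_two_gt_d9
  refine lt_of_lt_of_le ?_ h.le
  norm_num [coL]

end Pool.Agent.Lib.MP_33899d_ntN
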