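import Pool.Agent.Lib.MP_33899d_ntN.LogIneqC
import Pool.Agent.Lib.MP_33899d_ntN.Table
import Pool.Agent.Lib.MP_33899d_ntN.Regroup
import Pool.Agent.Lib.MP_33899d_ntN.MomentC
import Pool.Agent.Lib.MP_33899d_ntN.RelC
import Pool.Agent.Lib.MP_33899d_ntN.Det
import Pool.Agent.Lib.MP_33899d_ntN.DetThree

/-!
# The order criterion, threshold `2 ^ (n / 2)`
-/

namespace Pool.Agent.Lib.MP_33899d_ntN

/-- The three terms of `1 + u + v` cannot cancel for `n`-th roots of unity, `n` coprime to `3`. -/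
theorem ne_zero_of_pow {n : ℕ} (hn : n.Coprime 3) {u v : ℂ} (hu : u ^ n = 1) (hv : v ^ n = 1)
    (hn0 : 0 < n) : 1 + u + v ≠ 0 := by
  intro h
  have nu : ‖u‖ = 1 := Complex.norm_eq_one_of_pow_eq_one hu hn0.ne'
  have nv : ‖v‖ = 1 := Complex.norm_eq_one_of_pow_eq_one hv hn0.ne'
  have cu : u * (starRingEnd ℂ) u = 1 := by
    rw [Complex.mul_conj, Complex.normSq_eq_norm_sq, nu]; norm_num
  have cv : v * (starRingEnd ℂ) v = 1 := by
    rw [Complex.mul_conj, Complex.normSq_eq_norm_sq, nv]; norm_num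
  have hc : 1 + (starRingEnd ℂ) u + (starRingEnd ℂ) v = 0 := by
    have := congrArg (starRingEnd ℂ) h
    simpa using this
  have h1 : u * v + v + u = 0 := by
    have : u * v * (1 + (starRingEnd ℂ) u + (starRingEnd ℂ) v) = 0 := by rw [hc, mul_zero]
    linear_combination this - v * cu - u * cv
  have h2 : u * v = 1 := by linear_combination h1 - h
  have h3 : u ^ 2 + u + 1 = 0 := by linear_combination u * h - h2
  have h4 : u ^ 3 = 1 := by linear_combination (u - 1) * h3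
  have h5 : orderOf u ∣ 1 := by
    have := Nat.dvd_gcd (orderOf_dvd_of_pow_eq_one hu) (orderOf_dvd_of_pow_eq_one h4)
    rwa [hn] at this
  have h6 : u = 1 := by
    have := orderOf_dvd_iff_pow_eq_one.1 h5
    simpa using this
  rw [h6] at h3
  norm_num at h3

/-- The weighted sum over the relations is at most the term of the zero relation. -/
theorem sum_ind_le {n a b : ℕ} (h : GenericB n a b) :
    ∑ u ∈ Finset.Icc (-8 : ℤ) 8, ∑ v ∈ Finset.Icc (-8 : ℤ) 8, (FZ u v : ℝ) * ind n a b u v ≤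
      FZ 0 0 := by
  have h1 : ∀ u ∈ Finset.Icc (-8 : ℤ) 8, ∀ v ∈ Finset.Icc (-8 : ℤ) 8,
      (FZ u v : ℝ) * ind n a b u v ≤
        if u = 0 then (if v = 0 then (FZ 0 0 : ℝ) else 0) else 0 := by
    intro u hu v hv
    rw [Finset.mem_Icc] at hu hv
    have h0 : 0 ≤ ind n a b u v := by
      unfold ind
      split_ifs <;> norm_num
    rcases table u v (abs_le.2 hu) (abs_le.2 hv) with ⟨hu0, hv0⟩ | hb | hF
    · subst hu0
      subst hv0
      have : ind n a b 0 0 = 1 := by simp [ind]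
      rw [this]
      simp
    · have h2 : ind n a b u v = 0 := by
        unfold ind
        rw [if_neg (h u v hb)]
      rw [h2, mul_zero]
      have hne : ¬ (u = 0 ∧ v = 0) := by
        rintro ⟨rfl, rfl⟩
        revert hb
        decide
      by_cases hu0 : u = 0
      · rw [if_pos hu0, if_neg fun hv0 => hne ⟨hu0, hv0⟩]
      · rw [if_neg hu0]
    · have h2 : (FZ u v : ℝ) * ind n a b u v ≤ 0 :=
        mul_nonpos_of_nonpos_of_nonneg (by exact_mod_cast hF) h0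
      by_cases hu0 : u = 0
      · by_cases hv0 : v = 0
        · subst hu0
          subst hv0
          have : ind n a b 0 0 = 1 := by simp [ind]
          rw [this]
          simp
        · rw [if_pos hu0, if_neg hv0]
          exact h2
      · rw [if_neg hu0]
        exact h2
  calc ∑ u ∈ Finset.Icc (-8 : ℤ) 8, ∑ v ∈ Finset.Icc (-8 : ℤ) 8, (FZ u v : ℝ) * ind n a b u v
      ≤ ∑ u ∈ Finset.Icc (-8 : ℤ) 8, ∑ v ∈ Finset.Icc (-8 : ℤ) 8,
          (if u = 0 then (if v = 0 then (FZ 0 0 : ℝ) else 0) else 0) :=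
        Finset.sum_le_sum fun u hu => Finset.sum_le_sum fun v hv => h1 u hu v hv
    _ = FZ 0 0 := by
        have h3 : ∀ u ∈ Finset.Icc (-8 : ℤ) 8, ∑ v ∈ Finset.Icc (-8 : ℤ) 8,
            (if u = 0 then (if v = 0 then (FZ 0 0 : ℝ) else 0) else 0) =
              if u = 0 then (FZ 0 0 : ℝ) else 0 := by
          intro u _
          by_cases hu0 : u = 0
          · simp [hu0]
          · simp [hu0]
        rw [Finset.sum_congr rfl h3]
        simp

/-- The sum of the values of the majorant. -/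
theorem sum_maj_le {n : ℕ} (hn : 0 < n) {ζ : ℂ} (hζ : IsPrimitiveRoot ζ n) {a b : ℕ}
    (h : GenericB n a b) :
    ∑ k : Fin n, maj (‖1 + (ζ ^ (k : ℕ)) ^ a + (ζ ^ (k : ℕ)) ^ b‖ ^ 2) ≤
      n * ((FZ 0 0 : ℝ) / coL) := by
  have hL : (0 : ℝ) < coL := by norm_num [coL]
  set t : Fin n → ℝ := fun k => ‖1 + (ζ ^ (k : ℕ)) ^ a + (ζ ^ (k : ℕ)) ^ b‖ ^ 2 with ht
  have h1 : ∑ k : Fin n, maj (t k) =
      (∑ j ∈ Finset.range 9, (co j : ℝ) * ∑ k : Fin n, t k ^ j) / coL := by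
    unfold maj
    rw [← Finset.sum_div, Finset.sum_comm]
    congr 1
    exact Finset.sum_congr rfl fun j _ => by rw [Finset.mul_sum]
  have h2 : ∑ j ∈ Finset.range 9, (co j : ℝ) * ∑ k : Fin n, t k ^ j =
      n * ∑ i ∈ Finset.range 9, ∑ l ∈ Finset.range 9, ∑ i' ∈ Finset.range 9,
        ∑ l' ∈ Finset.range 9, (GG i l i' l' : ℝ) *
          ind n a b ((i : ℤ) - i') ((l : ℤ) - l') := by
    have h3 : ∀ j ∈ Finset.range 9, (co j : ℝ) * ∑ k : Fin n, t k ^ j =
        n * ∑ i ∈ Finset.range 9, ∑ l ∈ Finset.range 9, ∑ i' ∈ Finset.range 9,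
        ∑ l' ∈ Finset.range 9, (co j : ℝ) * (((cc j i l * cc j i' l' : ℤ) : ℝ) *
          ind n a b ((i : ℤ) - i') ((l : ℤ) - l')) := by
      intro j hj
      have h4 := moment_eq hn hζ a b (Finset.mem_range.1 hj)
      simp only [ht]
      rw [h4]
      simp only [Finset.mul_sum]
      refine Finset.sum_congr rfl fun i _ => Finset.sum_congr rfl fun l _ =>
        Finset.sum_congr rfl fun i' _ => Finset.sum_congr rfl fun l' _ => ?_
      ring
    rw [Finset.sum_congr rfl h3, ← Finset.mul_sum, Finset.sum_comm]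
    congr 1
    refine Finset.sum_congr rfl fun i _ => ?_
    rw [Finset.sum_comm]
    refine Finset.sum_congr rfl fun l _ => ?_
    rw [Finset.sum_comm]
    refine Finset.sum_congr rfl fun i' _ => ?_
    rw [Finset.sum_comm]
    refine Finset.sum_congr rfl fun l' _ => ?_
    unfold GG
    rw [sumTo_eq]
    push_cast
    rw [Finset.sum_mul]
    exact Finset.sum_congr rfl fun j _ => by ring
  rw [h1, h2, regroup (ind n a b), mul_div_assoc]
  refine mul_le_mul_of_nonneg_left ?_ (Nat.cast_nonneg n)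
  exact div_le_div_of_nonneg_right (sum_ind_le h) hL.le

theorem det_boundC {n : ℕ} (hn : 0 < n) (h3 : n.Coprime 3) {a b : ℕ} (h : GenericB n a b) :
    (circ n a b).det ≠ 0 ∧ ((circ n a b).det : ℝ) ^ 2 < 2 ^ n := by
  have hζ := Complex.isPrimitiveRoot_exp n hn.ne'
  set ζ : ℂ := Complex.exp (2 * Real.pi * Complex.I / n) with hζdef
  have hdet := det_circ hζ a b
  have hne : ∀ k : Fin n, 1 + (ζ ^ (k : ℕ)) ^ a + (ζ ^ (k : ℕ)) ^ b ≠ 0 := by
    intro k
    apply ne_zero_of_pow h3 _ _ hn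
    · rw [← pow_mul, ← pow_mul, show (k : ℕ) * (a * n) = n * ((k : ℕ) * a) by ring, pow_mul,
        hζ.pow_eq_one, one_pow]
    · rw [← pow_mul, ← pow_mul, show (k : ℕ) * (b * n) = n * ((k : ℕ) * b) by ring, pow_mul,
        hζ.pow_eq_one, one_pow]
  have hd0 : (circ n a b).det ≠ 0 := by
    intro h0
    rw [h0, Int.cast_zero] at hdet
    exact (Finset.prod_ne_zero_iff.2 fun k _ => hne k) hdet.symm
  refine ⟨hd0, ?_⟩
  set t : Fin n → ℝ := fun k => ‖1 + (ζ ^ (k : ℕ)) ^ a + (ζ ^ (k : ℕ)) ^ b‖ ^ 2 with ht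
  have htpos : ∀ k, 0 < t k := fun k => by
    have := norm_pos_iff.2 (hne k)
    simp only [ht]; positivity
  have htle : ∀ k, t k ≤ 9 := fun k => by
    have h1 : ‖(ζ ^ (k : ℕ)) ^ a‖ = 1 := by
      rw [norm_pow, norm_pow, Complex.norm_eq_one_of_pow_eq_one hζ.pow_eq_one hn.ne', one_pow,
        one_pow]
    have h2 : ‖(ζ ^ (k : ℕ)) ^ b‖ = 1 := by
      rw [norm_pow, norm_pow, Complex.norm_eq_one_of_pow_eq_one hζ.pow_eq_one hn.ne', one_pow,
        one_pow]
    have h3 : ‖1 + (ζ ^ (k : ℕ)) ^ a + (ζ ^ (k : ℕ)) ^ b‖ ≤ 3 := by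
      refine (norm_add₃_le).trans ?_
      rw [h1, h2, norm_one]
      norm_num
    simp only [ht]
    nlinarith [norm_nonneg (1 + (ζ ^ (k : ℕ)) ^ a + (ζ ^ (k : ℕ)) ^ b)]
  have hsq : ((circ n a b).det : ℝ) ^ 2 = ∏ k, t k := by
    have h1 : ‖(((circ n a b).det : ℤ) : ℂ)‖ = |((circ n a b).det : ℝ)| := by
      rw [Complex.norm_intCast]
    rw [← sq_abs, ← h1, hdet, norm_prod, ← Finset.prod_pow]
  have hprod : 0 < ∏ k, t k := Finset.prod_pos fun k _ => htpos k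
  have hlog : Real.log (∏ k, t k) < n * Real.log 2 := by
    rw [Real.log_prod (fun k _ => (htpos k).ne')]
    calc ∑ k, Real.log (t k) ≤ ∑ k, maj (t k) :=
          Finset.sum_le_sum fun k _ => log_le_maj (htpos k) (htle k)
      _ ≤ n * ((FZ 0 0 : ℝ) / coL) := sum_maj_le hn hζ h
      _ < n * Real.log 2 := by
          have hn' : (0 : ℝ) < n := Nat.cast_pos.2 hn
          exact mul_lt_mul_of_pos_left beta_lt hn'
  rw [hsq, ← Real.log_lt_log_iff hprod (by positivity), Real.log_pow]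
  exact hlog

theorem lowC {p : ℕ} (hp : p.Prime) (hp2 : p ≠ 2) (hn : (orderOf (2 : ZMod p)).Coprime 6)
    {a b : ℕ} (hab : p ∣ 2 ^ a + 2 ^ b + 1)
    (hk : ∀ k, 1 ≤ k → ¬ p ∣ 2 ^ (3 * k) + 2 ^ k + 1 ∧ ¬ p ∣ 2 ^ (5 * k) + 2 ^ (2 * k) + 1 ∧
      ¬ p ∣ 2 ^ (6 * k) + 2 ^ k + 1) :
    9 * p ^ 2 < 2 ^ orderOf (2 : ZMod p) := by
  have := Fact.mk hp
  set n := orderOf (2 : ZMod p) with hndef
  have h2ne : (2 : ZMod p) ≠ 0 := by
    intro h0
    have h1 : ((2 : ℕ) : ZMod p) = 0 := by exact_mod_cast h0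
    rw [ZMod.natCast_eq_zero_iff] at h1
    exact hp2 ((Nat.prime_dvd_prime_iff_eq hp Nat.prime_two).1 h1)
  have hn0 : 0 < n := by
    rw [hndef]
    exact orderOf_pos_iff.2 (isOfFinOrder_iff_pow_eq_one.2
      ⟨p - 1, by have := hp.two_le; omega, ZMod.pow_card_sub_one_eq_one h2ne⟩)
  have h2n : (2 : ZMod p) ^ n = 1 := pow_orderOf_eq_one _
  have hn2 : n.Coprime 2 := Nat.Coprime.coprime_dvd_right (by norm_num) hn
  have hn3 : n.Coprime 3 := Nat.Coprime.coprime_dvd_right (by norm_num) hn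
  have hodd : Odd n := Nat.coprime_two_right.1 hn2
  have hp3 : p ≠ 3 := by
    intro h3
    have h1 : (2 : ZMod p) ^ 2 = 1 := by
      have : ((3 : ℕ) : ZMod p) = 0 := by rw [← h3]; exact ZMod.natCast_self p
      have h' : (3 : ZMod p) = 0 := by exact_mod_cast this
      linear_combination h'
    have h2' : n ∣ 1 := by
      have h4 := Nat.dvd_gcd (dvd_refl n) (orderOf_dvd_of_pow_eq_one h1)
      rwa [hn2] at h4
    have h5 : (2 : ZMod p) ^ 1 = 1 := orderOf_dvd_iff_pow_eq_one.1 h2'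
    have h6 : (1 : ZMod p) = 0 := by linear_combination h5
    exact one_ne_zero h6
  have hn1 : n ≠ 1 := by
    intro h1
    rw [h1] at h2n
    have h6 : (1 : ZMod p) = 0 := by linear_combination h2n
    exact one_ne_zero h6
  have hprim : IsPrimitiveRoot (2 : ZMod p) n := IsPrimitiveRoot.orderOf _
  have habK : (1 : ZMod p) + 2 ^ a + 2 ^ b = 0 := by
    have h1 : ((2 ^ a + 2 ^ b + 1 : ℕ) : ZMod p) = 0 := (ZMod.natCast_eq_zero_iff _ _).2 hab
    push_cast at h1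
    linear_combination h1
  have hxn : ((2 : ZMod p) ^ a) ^ n = 1 := by rw [← pow_mul, mul_comm, pow_mul, h2n, one_pow]
  have hyn : ((2 : ZMod p) ^ b) ^ n = 1 := by rw [← pow_mul, mul_comm, pow_mul, h2n, one_pow]
  have hcop : IsCoprime (3 : ℤ) (p : ℤ) := by
    have : Nat.Coprime 3 p := (Nat.coprime_primes Nat.prime_three hp).2 (Ne.symm hp3)
    exact_mod_cast Nat.isCoprime_iff_coprime.2 this
  -- roots of unity are powers of two
  have hroot : ∀ w : ZMod p, w ^ n = 1 → ∃ k, 1 ≤ k ∧ (2 : ZMod p) ^ k = w := by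
    intro w hw
    have : NeZero n := ⟨hn0.ne'⟩
    obtain ⟨i, -, hi⟩ := hprim.eq_pow_of_pow_eq_one hw
    exact ⟨i + n, by omega, by rw [pow_add, h2n, mul_one, hi]⟩
  have h3r : ∀ w : ZMod p, w ^ n = 1 → w ^ 3 + w + 1 ≠ 0 := by
    intro w hw h0
    obtain ⟨k, hk1, hkw⟩ := hroot w hw
    apply (hk k hk1).1
    rw [← ZMod.natCast_eq_zero_iff]
    push_cast
    rw [mul_comm 3 k, pow_mul, hkw]
    exact h0
  have h5r : ∀ w : ZMod p, w ^ n = 1 → w ^ 5 + w ^ 2 + 1 ≠ 0 := by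
    intro w hw h0
    obtain ⟨k, hk1, hkw⟩ := hroot w hw
    apply (hk k hk1).2.1
    rw [← ZMod.natCast_eq_zero_iff]
    push_cast
    rw [mul_comm 5 k, mul_comm 2 k, pow_mul, pow_mul, hkw]
    exact h0
  have h6r : ∀ w : ZMod p, w ^ n = 1 → w ^ 6 + w + 1 ≠ 0 := by
    intro w hw h0
    obtain ⟨k, hk1, hkw⟩ := hroot w hw
    apply (hk k hk1).2.2
    rw [← ZMod.natCast_eq_zero_iff]
    push_cast
    rw [mul_comm 6 k, pow_mul, hkw]
    exact h0
  have hgen : GenericB n a b := by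
    intro u v hb hd
    apply relC hp2 hodd h2n hxn hyn habK h3r h5r h6r u v hb
    obtain ⟨c, hc⟩ := hd
    have h1 : ((2 : ZMod p) ^ a) ^ u * ((2 : ZMod p) ^ b) ^ v =
        (2 : ZMod p) ^ (u * a + v * b) := by
      rw [zpow_add₀ h2ne, mul_comm u, mul_comm v, zpow_mul, zpow_mul, zpow_natCast,
        zpow_natCast]
    rw [h1, hc, zpow_mul, zpow_natCast, h2n, one_zpow]
  obtain ⟨hd0, hdlt⟩ := det_boundC hn0 hn3 hgen
  have hdet := det_circ hprim a b
  have hzero : (((circ n a b).det : ℤ) : ZMod p) = 0 := by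
    rw [hdet]
    apply Finset.prod_eq_zero (Finset.mem_univ (⟨1, by omega⟩ : Fin n))
    simp only [pow_one]
    exact habK
  have hdvd : (p : ℤ) ∣ (circ n a b).det := (ZMod.intCast_zmod_eq_zero_iff_dvd _ _).1 hzero
  have hdvd3 : (3 : ℤ) * p ∣ (circ n a b).det := hcop.mul_dvd (three_dvd_det hn0 a b) hdvd
  have hle : (3 : ℤ) * p ≤ |(circ n a b).det| :=
    Int.le_of_dvd (abs_pos.2 hd0) ((dvd_abs _ _).2 hdvd3)
  have hsq : ((3 : ℤ) * p) ^ 2 ≤ (circ n a b).det ^ 2 := by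
    rw [← sq_abs (circ n a b).det]
    exact pow_le_pow_left₀ (by positivity) hle 2
  have hdlt' : (circ n a b).det ^ 2 < (2 : ℤ) ^ n := by exact_mod_cast hdlt
  have hfin : ((9 * p ^ 2 : ℕ) : ℤ) < ((2 ^ n : ℕ) : ℤ) := by
    push_cast
    calc (9 : ℤ) * (p : ℤ) ^ 2 = ((3 : ℤ) * p) ^ 2 := by ring
      _ ≤ (circ n a b).det ^ 2 := hsq
      _ < 2 ^ n := hdlt'
  exact_mod_cast hfin

theorem easy {p : ℕ} (hp : p.Prime) (hp2 : p ≠ 2) (hn : ¬ (orderOf (2 : ZMod p)).Coprime 6) :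
    ∃ a b : ℕ, 1 ≤ a ∧ 1 ≤ b ∧ p ∣ 2 ^ a + 2 ^ b + 1 := by
  have := Fact.mk hp
  set n := orderOf (2 : ZMod p) with hndef
  have h2ne : (2 : ZMod p) ≠ 0 := by
    intro h0
    have h1 : ((2 : ℕ) : ZMod p) = 0 := by exact_mod_cast h0
    rw [ZMod.natCast_eq_zero_iff] at h1
    exact hp2 ((Nat.prime_dvd_prime_iff_eq hp Nat.prime_two).1 h1)
  have hn0 : 0 < n := by
    rw [hndef]
    exact orderOf_pos_iff.2 (isOfFinOrder_iff_pow_eq_one.2
      ⟨p - 1, by have := hp.two_le; omega, ZMod.pow_card_sub_one_eq_one h2ne⟩)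
  have h2n : (2 : ZMod p) ^ n = 1 := pow_orderOf_eq_one _
  have hcases : 2 ∣ n ∨ 3 ∣ n := by
    by_contra hcon
    push Not at hcon
    apply hn
    have h2 : Nat.Coprime n 2 := ((Nat.Prime.coprime_iff_not_dvd Nat.prime_two).2 hcon.1).symm
    have h3 : Nat.Coprime n 3 := ((Nat.Prime.coprime_iff_not_dvd Nat.prime_three).2 hcon.2).symm
    exact Nat.Coprime.mul_right h2 h3
  rcases hcases with ⟨m, hm⟩ | ⟨m, hm⟩
  · have hm0 : 0 < m := by omega
    have hne : (2 : ZMod p) ^ m ≠ 1 := by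
      intro h1
      have := Nat.le_of_dvd hm0 (orderOf_dvd_of_pow_eq_one h1)
      omega
    have hsq : ((2 : ZMod p) ^ m - 1) * ((2 : ZMod p) ^ m + 1) = 0 := by
      have : ((2 : ZMod p) ^ m) ^ 2 = 1 := by rw [← pow_mul, mul_comm, ← hm, h2n]
      linear_combination this
    have hneg : (2 : ZMod p) ^ m + 1 = 0 := by
      rcases mul_eq_zero.1 hsq with h | h
      · exact absurd (sub_eq_zero.1 h) hne
      · exact h
    refine ⟨m + 1, 2 * m, by omega, by omega, ?_⟩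
    rw [← ZMod.natCast_eq_zero_iff]
    push_cast
    have : (2 : ZMod p) ^ (2 * m) = 1 := by rw [← hm, h2n]
    rw [this, pow_succ]
    linear_combination 2 * hneg
  · have hm0 : 0 < m := by omega
    have hne : (2 : ZMod p) ^ m ≠ 1 := by
      intro h1
      have := Nat.le_of_dvd hm0 (orderOf_dvd_of_pow_eq_one h1)
      omega
    have hcu : ((2 : ZMod p) ^ m - 1) * ((2 : ZMod p) ^ m + (2 : ZMod p) ^ (2 * m) + 1) = 0 := by
      have : ((2 : ZMod p) ^ m) ^ 3 = 1 := by rw [← pow_mul, mul_comm, ← hm, h2n]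
      rw [mul_comm 2 m, pow_mul]
      linear_combination this
    refine ⟨m, 2 * m, by omega, by omega, ?_⟩
    rw [← ZMod.natCast_eq_zero_iff]
    push_cast
    rcases mul_eq_zero.1 hcu with h | h
    · exact absurd (sub_eq_zero.1 h) hne
    · exact h

theorem mainC {p : ℕ} (hp : p.Prime) (hp2 : p ≠ 2)
    (hle : 2 ^ orderOf (2 : ZMod p) ≤ 9 * p ^ 2) :
    (∃ a b : ℕ, 1 ≤ a ∧ 1 ≤ b ∧ p ∣ 2 ^ a + 2 ^ b + 1) ↔
      (¬ (orderOf (2 : ZMod p)).Coprime 6 ∨
        ∃ k : ℕ, 1 ≤ k ∧ (p ∣ 2 ^ (3 * k) + 2 ^ k + 1 ∨ p ∣ 2 ^ (5 * k) + 2 ^ (2 * k) + 1 ∨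
          p ∣ 2 ^ (6 * k) + 2 ^ k + 1)) := by
  constructor
  · rintro ⟨a, b, -, -, h⟩
    by_contra hcon
    push Not at hcon
    exact absurd (lowC hp hp2 hcon.1 h hcon.2) (not_lt.2 hle)
  · rintro (h | ⟨k, hk, h | h | h⟩)
    · exact easy hp hp2 h
    · exact ⟨3 * k, k, by omega, hk, h⟩
    · exact ⟨5 * k, 2 * k, by omega, by omega, h⟩
    · exact ⟨6 * k, k, by omega, hk, h⟩

end Pool.Agent.Lib.MP_33899d_ntN
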