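import Pool.Agent.Lib.MP_33899d_ntN.Defs

/-!
# The logarithm inequality with four moments

Proof of `log_le_four`: for
`h t = -15 t^4/7168 + 59 t^3/1248 - 4577 t^2/11648 + 295 t/182 - 89/70 - log t` one has
`h' t = -(15/1792) (t - 14/13) (t - 8/3) (t - 26/5) (t - 8) / t`,
so `h` is antitone on `(0, 14/13]`, monotone on `[14/13, 8/3]`, antitone on `[8/3, 26/5]`,
monotone on `[26/5, 8]`, antitone on `[8, 9]`; hence it suffices that `h (14/13) ≥ 0` (value
0.000536; needed `log (14/13) ≤ 0.0746`, true value 0.074108), `h (26/5) ≥ 0` (value 0.000585;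
needed `log (26/5) ≤ 1.64924`, true value 1.648659) and `h 9 ≥ 0` (value 0.02504; needed
`log 9 ≤ 2.2222`, true value 2.197225).
-/

namespace Pool.Agent.Lib.MP_33899d_ntN

/-- The difference. -/
private noncomputable def LIB_h (t : ℝ) : ℝ :=
  -(15 * t ^ 4 / 7168) + 59 * t ^ 3 / 1248 - 4577 * t ^ 2 / 11648 + 295 * t / 182 - 89 / 70 -
    Real.log t

private theorem LIB_deriv {t : ℝ} (ht : 0 < t) : HasDerivAt LIB_h
    (-(15 / 1792) * ((t - 14 / 13) * (t - 8 / 3) * (t - 26 / 5) * (t - 8) / t)) t := by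
  have e4 := ((hasDerivAt_pow 4 t).const_mul (15 / 7168 : ℝ)).neg
  have e3 := (hasDerivAt_pow 3 t).const_mul (59 / 1248 : ℝ)
  have e2 := (hasDerivAt_pow 2 t).const_mul (4577 / 11648 : ℝ)
  have e1 := (hasDerivAt_id' t).const_mul (295 / 182 : ℝ)
  have h := ((((e4.add e3).sub e2).add e1).sub_const (89 / 70 : ℝ)).sub
    (Real.hasDerivAt_log ht.ne')
  refine (h.congr_deriv ?_).congr_of_eventuallyEq (Filter.Eventually.of_forall fun x => ?_)
  · push_cast
    field_simp
    ring
  · simp only [LIB_h, Pi.add_apply, Pi.sub_apply, Pi.neg_apply]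
    ring

private theorem LIB_cont {a b : ℝ} (ha : 0 < a) : ContinuousOn LIB_h (Set.Icc a b) :=
  fun _ ht => (LIB_deriv (ha.trans_le ht.1)).continuousAt.continuousWithinAt

private theorem LIB_anti {a b : ℝ} (ha : 0 < a) (hab : a ≤ b)
    (h : ∀ t, a < t → t < b → 0 ≤ (t - 14 / 13) * (t - 8 / 3) * (t - 26 / 5) * (t - 8)) :
    LIB_h b ≤ LIB_h a := by
  refine antitoneOn_of_deriv_nonpos (convex_Icc a b) (LIB_cont ha) (fun t ht => ?_)
    (fun t ht => ?_) (Set.left_mem_Icc.2 hab) (Set.right_mem_Icc.2 hab) hab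
  · rw [interior_Icc] at ht
    exact (LIB_deriv (ha.trans ht.1)).differentiableAt.differentiableWithinAt
  · rw [interior_Icc] at ht
    rw [(LIB_deriv (ha.trans ht.1)).deriv]
    have h1 := div_nonneg (h t ht.1 ht.2) (ha.trans ht.1).le
    linarith

private theorem LIB_mono {a b : ℝ} (ha : 0 < a) (hab : a ≤ b)
    (h : ∀ t, a < t → t < b → (t - 14 / 13) * (t - 8 / 3) * (t - 26 / 5) * (t - 8) ≤ 0) :
    LIB_h a ≤ LIB_h b := by
  refine monotoneOn_of_deriv_nonneg (convex_Icc a b) (LIB_cont ha) (fun t ht => ?_)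
    (fun t ht => ?_) (Set.left_mem_Icc.2 hab) (Set.right_mem_Icc.2 hab) hab
  · rw [interior_Icc] at ht
    exact (LIB_deriv (ha.trans ht.1)).differentiableAt.differentiableWithinAt
  · rw [interior_Icc] at ht
    rw [(LIB_deriv (ha.trans ht.1)).deriv]
    have h1 := div_nonpos_of_nonpos_of_nonneg (h t ht.1 ht.2) (ha.trans ht.1).le
    linarith

private theorem LIB_v1 : 0 ≤ LIB_h (14 / 13) := by
  have h1 : Real.log (14 / 13) ≤ 0.0746 := by
    rw [Real.log_le_iff_le_exp (by norm_num)]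
    refine le_trans ?_ (Real.quadratic_le_exp_of_nonneg (by norm_num))
    norm_num
  unfold LIB_h
  norm_num at h1 ⊢
  linarith

private theorem LIB_v2 : 0 ≤ LIB_h (26 / 5) := by
  have h1 : Real.log (26 / 5) ≤ 1.64924 := by
    rw [Real.log_le_iff_le_exp (by norm_num)]
    have h2 := Real.exp_one_gt_d9
    have h3 := Real.sum_le_exp_of_nonneg (x := 0.64924) (by norm_num) 6
    have h4 : Real.exp 1.64924 = Real.exp 1 * Real.exp 0.64924 := by
      rw [← Real.exp_add]
      norm_num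
    rw [h4]
    have h5 : (1.9136 : ℝ) ≤ Real.exp 0.64924 := by
      refine le_trans ?_ h3
      norm_num [Finset.sum_range_succ, Nat.factorial]
    calc (26 / 5 : ℝ) ≤ 2.7182818283 * 1.9136 := by norm_num
      _ ≤ Real.exp 1 * Real.exp 0.64924 :=
        mul_le_mul h2.le h5 (by norm_num) (Real.exp_pos _).le
  unfold LIB_h
  norm_num at h1 ⊢
  linarith

private theorem LIB_v3 : 0 ≤ LIB_h 9 := by
  have h1 : Real.log 9 ≤ 2.2222 := by
    rw [Real.log_le_iff_le_exp (by norm_num)]
    have h2 := Real.exp_one_gt_d9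
    have h5 : (1.24 : ℝ) ≤ Real.exp 0.2222 := by
      refine le_trans ?_ (Real.quadratic_le_exp_of_nonneg (by norm_num))
      norm_num
    have h4 : Real.exp 2.2222 = Real.exp 1 * Real.exp 1 * Real.exp 0.2222 := by
      rw [← Real.exp_add, ← Real.exp_add]
      norm_num
    rw [h4]
    calc (9 : ℝ) ≤ 2.7182818283 * 2.7182818283 * 1.24 := by norm_num
      _ ≤ Real.exp 1 * Real.exp 1 * Real.exp 0.2222 :=
        mul_le_mul (mul_le_mul h2.le h2.le (by norm_num) (Real.exp_pos _).le) h5 (by norm_num)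
          (mul_pos (Real.exp_pos _) (Real.exp_pos _)).le
  unfold LIB_h
  norm_num at h1 ⊢
  linarith

theorem log_le_four {t : ℝ} (ht : 0 < t) (h9 : t ≤ 9) :
    Real.log t ≤ -(15 * t ^ 4 / 7168) + 59 * t ^ 3 / 1248 - 4577 * t ^ 2 / 11648 +
      295 * t / 182 - 89 / 70 := by
  have key : 0 ≤ LIB_h t := by
    rcases le_total t (14 / 13) with h1 | h1
    · refine LIB_v1.trans (LIB_anti ht h1 fun s _ hs => ?_)
      have a1 : s - 14 / 13 ≤ 0 := by linarith
      have a2 : s - 8 / 3 ≤ 0 := by linarith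
      have a3 : s - 26 / 5 ≤ 0 := by linarith
      have a4 : s - 8 ≤ 0 := by linarith
      exact mul_nonneg_of_nonpos_of_nonpos
        (mul_nonpos_of_nonneg_of_nonpos (mul_nonneg_of_nonpos_of_nonpos a1 a2) a3) a4
    rcases le_total t (8 / 3) with h2 | h2
    · refine LIB_v1.trans (LIB_mono (by norm_num) h1 fun s hs hs' => ?_)
      have a1 : 0 ≤ s - 14 / 13 := by linarith
      have a2 : s - 8 / 3 ≤ 0 := by linarith
      have a3 : s - 26 / 5 ≤ 0 := by linarith
      have a4 : s - 8 ≤ 0 := by linarith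
      exact mul_nonpos_of_nonneg_of_nonpos
        (mul_nonneg_of_nonpos_of_nonpos (mul_nonpos_of_nonneg_of_nonpos a1 a2) a3) a4
    rcases le_total t (26 / 5) with h3 | h3
    · refine LIB_v2.trans (LIB_anti ht h3 fun s hs hs' => ?_)
      have a1 : 0 ≤ s - 14 / 13 := by linarith
      have a2 : 0 ≤ s - 8 / 3 := by linarith
      have a3 : s - 26 / 5 ≤ 0 := by linarith
      have a4 : s - 8 ≤ 0 := by linarith
      exact mul_nonneg_of_nonpos_of_nonpos
        (mul_nonpos_of_nonneg_of_nonpos (mul_nonneg a1 a2) a3) a4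
    rcases le_total t 8 with h4 | h4
    · refine LIB_v2.trans (LIB_mono (by norm_num) h3 fun s hs hs' => ?_)
      have a1 : 0 ≤ s - 14 / 13 := by linarith
      have a2 : 0 ≤ s - 8 / 3 := by linarith
      have a3 : 0 ≤ s - 26 / 5 := by linarith
      have a4 : s - 8 ≤ 0 := by linarith
      exact mul_nonpos_of_nonneg_of_nonpos (mul_nonneg (mul_nonneg a1 a2) a3) a4
    · refine LIB_v3.trans (LIB_anti ht h9 fun s hs hs' => ?_)
      have a1 : 0 ≤ s - 14 / 13 := by linarith
      have a2 : 0 ≤ s - 8 / 3 := by linarith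
      have a3 : 0 ≤ s - 26 / 5 := by linarith
      have a4 : 0 ≤ s - 8 := by linarith
      exact mul_nonneg (mul_nonneg (mul_nonneg a1 a2) a3) a4
  unfold LIB_h at key
  linarith

/-- `exp (50353/66560) = 2.13082... < (73/50)^2 = 2.1316`: Taylor expansion
(`Real.exp_bound'`). -/
theorem exp_lt_four : Real.exp (50353 / 66560) < (73 / 50) ^ 2 := by
  have h := Real.exp_bound' (x := 50353 / 66560) (by norm_num) (by norm_num) (n := 6) (by norm_num)
  refine h.trans_lt ?_
  norm_num [Finset.sum_range_succ, Nat.factorial]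

end Pool.Agent.Lib.MP_33899d_ntN
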