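import Pool.Agent.Lib.MP_33899d_ntN.Coef

/-!
# The logarithm inequality of degree eight

Proof of `log_le_maj`, same technique as `LogIneqB.lean`: with `h t = maj t - log t`,
`h' t = -(121/643195) (t - 7/12) (t - 15/14) (t - 23/12) (t - 3) (t - 17/4) (t - 64/11) (t - 7)
(t - 94/11) / t`, so `h` is antitone on `(0, 7/12]`, monotone on `[7/12, 15/14]`, antitone on
`[15/14, 23/12]`, monotone on `[23/12, 3]`, antitone on `[3, 17/4]`, monotone on `[17/4, 64/11]`,
antitone on `[64/11, 7]`, monotone on `[7, 94/11]`, antitone on `[94/11, 9]`.  Hence it suffices: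
`h (7/12) ≥ 0` (value 0.000335), `h (23/12) ≥ 0` (0.001425), `h (17/4) ≥ 0` (0.000349),
`h 7 ≥ 0` (0.000470), `h 9 ≥ 0` (0.000700).  True values: `log (7/12) = -0.538997`,
`log (23/12) = 0.650588`, `log (17/4) = 1.446919`, `log 7 = 1.945910`, `log 9 = 2.197225`.

The coefficients of `maj`, lowest first: -21397/10000, 514935419/123493440,
-6781386967/2074689792, 13252468423/7780086720, -3833665357/6915632640,
1441676441/12966811200, -449573/33826464, 4741/5481140, -121/5145560.
-/

namespace Pool.Agent.Lib.MP_33899d_ntN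

/-- The difference. -/
private noncomputable def LIC_h (t : ℝ) : ℝ :=
  -21397 / 10000 + 514935419 / 123493440 * t - 6781386967 / 2074689792 * t ^ 2 +
    13252468423 / 7780086720 * t ^ 3 - 3833665357 / 6915632640 * t ^ 4 +
    1441676441 / 12966811200 * t ^ 5 - 449573 / 33826464 * t ^ 6 + 4741 / 5481140 * t ^ 7 -
    121 / 5145560 * t ^ 8 - Real.log t

/-- The product of the factors of the derivative. -/
private noncomputable def LIC_p (t : ℝ) : ℝ :=
  (t - 7 / 12) * (t - 15 / 14) * (t - 23 / 12) * (t - 3) *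
      (t - 17 / 4) * (t - 64 / 11) * (t - 7) * (t - 94 / 11)

private theorem LIC_deriv {t : ℝ} (ht : 0 < t) : HasDerivAt LIC_h
    (-(121 / 643195) * (LIC_p t / t)) t := by
  have e1 := (hasDerivAt_id' t).const_mul (514935419 / 123493440 : ℝ)
  have e2 := (hasDerivAt_pow 2 t).const_mul (6781386967 / 2074689792 : ℝ)
  have e3 := (hasDerivAt_pow 3 t).const_mul (13252468423 / 7780086720 : ℝ)
  have e4 := (hasDerivAt_pow 4 t).const_mul (3833665357 / 6915632640 : ℝ)
  have e5 := (hasDerivAt_pow 5 t).const_mul (1441676441 / 12966811200 : ℝ)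
  have e6 := (hasDerivAt_pow 6 t).const_mul (449573 / 33826464 : ℝ)
  have e7 := (hasDerivAt_pow 7 t).const_mul (4741 / 5481140 : ℝ)
  have e8 := (hasDerivAt_pow 8 t).const_mul (121 / 5145560 : ℝ)
  have h := ((((((((e1.const_add (-21397 / 10000 : ℝ)).sub e2).add e3).sub e4).add e5).sub e6).add
    e7).sub e8).sub (Real.hasDerivAt_log ht.ne')
  refine (h.congr_deriv ?_).congr_of_eventuallyEq (Filter.Eventually.of_forall fun x => ?_)
  · unfold LIC_p
    push_cast
    field_simp
    ring
  · simp only [LIC_h, Pi.add_apply, Pi.sub_apply]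

private theorem LIC_cont {a b : ℝ} (ha : 0 < a) : ContinuousOn LIC_h (Set.Icc a b) :=
  fun _ ht => (LIC_deriv (ha.trans_le ht.1)).continuousAt.continuousWithinAt

private theorem LIC_anti {a b : ℝ} (ha : 0 < a) (hab : a ≤ b)
    (h : ∀ t, a < t → t < b → 0 ≤ LIC_p t) : LIC_h b ≤ LIC_h a := by
  refine antitoneOn_of_deriv_nonpos (convex_Icc a b) (LIC_cont ha) (fun t ht => ?_)
    (fun t ht => ?_) (Set.left_mem_Icc.2 hab) (Set.right_mem_Icc.2 hab) hab
  · rw [interior_Icc] at ht
    exact (LIC_deriv (ha.trans ht.1)).differentiableAt.differentiableWithinAt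
  · rw [interior_Icc] at ht
    rw [(LIC_deriv (ha.trans ht.1)).deriv]
    have h1 := div_nonneg (h t ht.1 ht.2) (ha.trans ht.1).le
    linarith

private theorem LIC_mono {a b : ℝ} (ha : 0 < a) (hab : a ≤ b)
    (h : ∀ t, a < t → t < b → LIC_p t ≤ 0) : LIC_h a ≤ LIC_h b := by
  refine monotoneOn_of_deriv_nonneg (convex_Icc a b) (LIC_cont ha) (fun t ht => ?_)
    (fun t ht => ?_) (Set.left_mem_Icc.2 hab) (Set.right_mem_Icc.2 hab) hab
  · rw [interior_Icc] at ht
    exact (LIC_deriv (ha.trans ht.1)).differentiableAt.differentiableWithinAt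
  · rw [interior_Icc] at ht
    rw [(LIC_deriv (ha.trans ht.1)).deriv]
    have h1 := div_nonpos_of_nonpos_of_nonneg (h t ht.1 ht.2) (ha.trans ht.1).le
    linarith

private theorem LIC_v1 : 0 ≤ LIC_h (7 / 12) := by
  have h1 : Real.log (7 / 12) ≤ -0.5387 := by
    have e : (7 / 12 : ℝ) = (12 / 7)⁻¹ := by norm_num
    rw [e, Real.log_inv]
    have h2 : (0.5387 : ℝ) ≤ Real.log (12 / 7) := by
      rw [Real.le_log_iff_exp_le (by norm_num)]
      have h := Real.exp_bound' (x := 0.5387) (by norm_num) (by norm_num) (n := 6) (by norm_num)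
      refine h.trans ?_
      norm_num [Finset.sum_range_succ, Nat.factorial]
    linarith
  unfold LIC_h
  norm_num at h1 ⊢
  linarith

private theorem LIC_v2 : 0 ≤ LIC_h (23 / 12) := by
  have h1 : Real.log (23 / 12) ≤ 0.652 := by
    rw [Real.log_le_iff_le_exp (by norm_num)]
    have h3 := Real.sum_le_exp_of_nonneg (x := 0.652) (by norm_num) 6
    refine le_trans ?_ h3
    norm_num [Finset.sum_range_succ, Nat.factorial]
  unfold LIC_h
  norm_num at h1 ⊢
  linarith

private theorem LIC_v3 : 0 ≤ LIC_h (17 / 4) := by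
  have h1 : Real.log (17 / 4) ≤ 1.4472 := by
    rw [Real.log_le_iff_le_exp (by norm_num)]
    have h2 := Real.exp_one_gt_d9
    have h3 := Real.sum_le_exp_of_nonneg (x := 0.4472) (by norm_num) 7
    have h4 : Real.exp 1.4472 = Real.exp 1 * Real.exp 0.4472 := by
      rw [← Real.exp_add]
      norm_num
    rw [h4]
    have h5 : (1.5639 : ℝ) ≤ Real.exp 0.4472 := by
      refine le_trans ?_ h3
      norm_num [Finset.sum_range_succ, Nat.factorial]
    calc (17 / 4 : ℝ) ≤ 2.7182818283 * 1.5639 := by norm_num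
      _ ≤ Real.exp 1 * Real.exp 0.4472 :=
        mul_le_mul h2.le h5 (by norm_num) (Real.exp_pos _).le
  unfold LIC_h
  norm_num at h1 ⊢
  linarith

private theorem LIC_v4 : 0 ≤ LIC_h 7 := by
  have h1 : Real.log 7 ≤ 1.9463 := by
    rw [Real.log_le_iff_le_exp (by norm_num)]
    have h2 := Real.exp_one_gt_d9
    have h3 := Real.sum_le_exp_of_nonneg (x := 0.9463) (by norm_num) 9
    have h4 : Real.exp 1.9463 = Real.exp 1 * Real.exp 0.9463 := by
      rw [← Real.exp_add]
      norm_num
    rw [h4]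
    have h5 : (2.576 : ℝ) ≤ Real.exp 0.9463 := by
      refine le_trans ?_ h3
      norm_num [Finset.sum_range_succ, Nat.factorial]
    calc (7 : ℝ) ≤ 2.7182818283 * 2.576 := by norm_num
      _ ≤ Real.exp 1 * Real.exp 0.9463 :=
        mul_le_mul h2.le h5 (by norm_num) (Real.exp_pos _).le
  unfold LIC_h
  norm_num at h1 ⊢
  linarith

private theorem LIC_v5 : 0 ≤ LIC_h 9 := by
  have h1 : Real.log 9 ≤ 2.1978 := by
    rw [Real.log_le_iff_le_exp (by norm_num)]
    have h2 := Real.exp_one_gt_d9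
    have h3 := Real.sum_le_exp_of_nonneg (x := 0.1978) (by norm_num) 6
    have h5 : (1.2185 : ℝ) ≤ Real.exp 0.1978 := by
      refine le_trans ?_ h3
      norm_num [Finset.sum_range_succ, Nat.factorial]
    have h4 : Real.exp 2.1978 = Real.exp 1 * Real.exp 1 * Real.exp 0.1978 := by
      rw [← Real.exp_add, ← Real.exp_add]
      norm_num
    rw [h4]
    calc (9 : ℝ) ≤ 2.7182818283 * 2.7182818283 * 1.2185 := by norm_num
      _ ≤ Real.exp 1 * Real.exp 1 * Real.exp 0.1978 :=
        mul_le_mul (mul_le_mul h2.le h2.le (by norm_num) (Real.exp_pos _).le) h5 (by norm_num)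
          (mul_pos (Real.exp_pos _) (Real.exp_pos _)).le
  unfold LIC_h
  norm_num at h1 ⊢
  linarith

theorem log_le_maj {t : ℝ} (ht : 0 < t) (h9 : t ≤ 9) : Real.log t ≤ maj t := by
  have key : 0 ≤ LIC_h t := by
    rcases le_total t (7 / 12) with h1 | h1
    · refine LIC_v1.trans (LIC_anti ht h1 fun s hs hs2 => ?_)
      have a1 : s - 7 / 12 ≤ 0 := by linarith
      have a2 : s - 15 / 14 ≤ 0 := by linarith
      have a3 : s - 23 / 12 ≤ 0 := by linarith
      have a4 : s - 3 ≤ 0 := by linarith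
      have a5 : s - 17 / 4 ≤ 0 := by linarith
      have a6 : s - 64 / 11 ≤ 0 := by linarith
      have a7 : s - 7 ≤ 0 := by linarith
      have a8 : s - 94 / 11 ≤ 0 := by linarith
      unfold LIC_p
      exact mul_nonneg_of_nonpos_of_nonpos (mul_nonpos_of_nonneg_of_nonpos (mul_nonneg_of_nonpos_of_nonpos (mul_nonpos_of_nonneg_of_nonpos (mul_nonneg_of_nonpos_of_nonpos (mul_nonpos_of_nonneg_of_nonpos (mul_nonneg_of_nonpos_of_nonpos a1 a2) a3) a4) a5) a6) a7) a8
    rcases le_total t (15 / 14) with h2 | h2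
    · refine LIC_v1.trans (LIC_mono (by norm_num) h1 fun s hs hs2 => ?_)
      have a1 : 0 ≤ s - 7 / 12 := by linarith
      have a2 : s - 15 / 14 ≤ 0 := by linarith
      have a3 : s - 23 / 12 ≤ 0 := by linarith
      have a4 : s - 3 ≤ 0 := by linarith
      have a5 : s - 17 / 4 ≤ 0 := by linarith
      have a6 : s - 64 / 11 ≤ 0 := by linarith
      have a7 : s - 7 ≤ 0 := by linarith
      have a8 : s - 94 / 11 ≤ 0 := by linarith
      unfold LIC_p
      exact mul_nonpos_of_nonneg_of_nonpos (mul_nonneg_of_nonpos_of_nonpos (mul_nonpos_of_nonneg_of_nonpos (mul_nonneg_of_nonpos_of_nonpos (mul_nonpos_of_nonneg_of_nonpos (mul_nonneg_of_nonpos_of_nonpos (mul_nonpos_of_nonneg_of_nonpos a1 a2) a3) a4) a5) a6) a7) a8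
    rcases le_total t (23 / 12) with h3 | h3
    · refine LIC_v2.trans (LIC_anti ht h3 fun s hs hs2 => ?_)
      have a1 : 0 ≤ s - 7 / 12 := by linarith
      have a2 : 0 ≤ s - 15 / 14 := by linarith
      have a3 : s - 23 / 12 ≤ 0 := by linarith
      have a4 : s - 3 ≤ 0 := by linarith
      have a5 : s - 17 / 4 ≤ 0 := by linarith
      have a6 : s - 64 / 11 ≤ 0 := by linarith
      have a7 : s - 7 ≤ 0 := by linarith
      have a8 : s - 94 / 11 ≤ 0 := by linarith
      unfold LIC_p
      exact mul_nonneg_of_nonpos_of_nonpos (mul_nonpos_of_nonneg_of_nonpos (mul_nonneg_of_nonpos_of_nonpos (mul_nonpos_of_nonneg_of_nonpos (mul_nonneg_of_nonpos_of_nonpos (mul_nonpos_of_nonneg_of_nonpos (mul_nonneg a1 a2) a3) a4) a5) a6) a7) a8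
    rcases le_total t (3) with h4 | h4
    · refine LIC_v2.trans (LIC_mono (by norm_num) h3 fun s hs hs2 => ?_)
      have a1 : 0 ≤ s - 7 / 12 := by linarith
      have a2 : 0 ≤ s - 15 / 14 := by linarith
      have a3 : 0 ≤ s - 23 / 12 := by linarith
      have a4 : s - 3 ≤ 0 := by linarith
      have a5 : s - 17 / 4 ≤ 0 := by linarith
      have a6 : s - 64 / 11 ≤ 0 := by linarith
      have a7 : s - 7 ≤ 0 := by linarith
      have a8 : s - 94 / 11 ≤ 0 := by linarith
      unfold LIC_p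
      exact mul_nonpos_of_nonneg_of_nonpos (mul_nonneg_of_nonpos_of_nonpos (mul_nonpos_of_nonneg_of_nonpos (mul_nonneg_of_nonpos_of_nonpos (mul_nonpos_of_nonneg_of_nonpos (mul_nonneg (mul_nonneg a1 a2) a3) a4) a5) a6) a7) a8
    rcases le_total t (17 / 4) with h5 | h5
    · refine LIC_v3.trans (LIC_anti ht h5 fun s hs hs2 => ?_)
      have a1 : 0 ≤ s - 7 / 12 := by linarith
      have a2 : 0 ≤ s - 15 / 14 := by linarith
      have a3 : 0 ≤ s - 23 / 12 := by linarith
      have a4 : 0 ≤ s - 3 := by linarith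
      have a5 : s - 17 / 4 ≤ 0 := by linarith
      have a6 : s - 64 / 11 ≤ 0 := by linarith
      have a7 : s - 7 ≤ 0 := by linarith
      have a8 : s - 94 / 11 ≤ 0 := by linarith
      unfold LIC_p
      exact mul_nonneg_of_nonpos_of_nonpos (mul_nonpos_of_nonneg_of_nonpos (mul_nonneg_of_nonpos_of_nonpos (mul_nonpos_of_nonneg_of_nonpos (mul_nonneg (mul_nonneg (mul_nonneg a1 a2) a3) a4) a5) a6) a7) a8
    rcases le_total t (64 / 11) with h6 | h6
    · refine LIC_v3.trans (LIC_mono (by norm_num) h5 fun s hs hs2 => ?_)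
      have a1 : 0 ≤ s - 7 / 12 := by linarith
      have a2 : 0 ≤ s - 15 / 14 := by linarith
      have a3 : 0 ≤ s - 23 / 12 := by linarith
      have a4 : 0 ≤ s - 3 := by linarith
      have a5 : 0 ≤ s - 17 / 4 := by linarith
      have a6 : s - 64 / 11 ≤ 0 := by linarith
      have a7 : s - 7 ≤ 0 := by linarith
      have a8 : s - 94 / 11 ≤ 0 := by linarith
      unfold LIC_p
      exact mul_nonpos_of_nonneg_of_nonpos (mul_nonneg_of_nonpos_of_nonpos (mul_nonpos_of_nonneg_of_nonpos (mul_nonneg (mul_nonneg (mul_nonneg (mul_nonneg a1 a2) a3) a4) a5) a6) a7) a8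
    rcases le_total t (7) with h7 | h7
    · refine LIC_v4.trans (LIC_anti ht h7 fun s hs hs2 => ?_)
      have a1 : 0 ≤ s - 7 / 12 := by linarith
      have a2 : 0 ≤ s - 15 / 14 := by linarith
      have a3 : 0 ≤ s - 23 / 12 := by linarith
      have a4 : 0 ≤ s - 3 := by linarith
      have a5 : 0 ≤ s - 17 / 4 := by linarith
      have a6 : 0 ≤ s - 64 / 11 := by linarith
      have a7 : s - 7 ≤ 0 := by linarith
      have a8 : s - 94 / 11 ≤ 0 := by linarith
      unfold LIC_p
      exact mul_nonneg_of_nonpos_of_nonpos (mul_nonpos_of_nonneg_of_nonpos (mul_nonneg (mul_nonneg (mul_nonneg (mul_nonneg (mul_nonneg a1 a2) a3) a4) a5) a6) a7) a8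
    rcases le_total t (94 / 11) with h8 | h8
    · refine LIC_v4.trans (LIC_mono (by norm_num) h7 fun s hs hs2 => ?_)
      have a1 : 0 ≤ s - 7 / 12 := by linarith
      have a2 : 0 ≤ s - 15 / 14 := by linarith
      have a3 : 0 ≤ s - 23 / 12 := by linarith
      have a4 : 0 ≤ s - 3 := by linarith
      have a5 : 0 ≤ s - 17 / 4 := by linarith
      have a6 : 0 ≤ s - 64 / 11 := by linarith
      have a7 : 0 ≤ s - 7 := by linarith
      have a8 : s - 94 / 11 ≤ 0 := by linarith
      unfold LIC_p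
      exact mul_nonpos_of_nonneg_of_nonpos (mul_nonneg (mul_nonneg (mul_nonneg (mul_nonneg (mul_nonneg (mul_nonneg a1 a2) a3) a4) a5) a6) a7) a8
    · refine LIC_v5.trans (LIC_anti ht h9 fun s hs hs2 => ?_)
      have a1 : 0 ≤ s - 7 / 12 := by linarith
      have a2 : 0 ≤ s - 15 / 14 := by linarith
      have a3 : 0 ≤ s - 23 / 12 := by linarith
      have a4 : 0 ≤ s - 3 := by linarith
      have a5 : 0 ≤ s - 17 / 4 := by linarith
      have a6 : 0 ≤ s - 64 / 11 := by linarith
      have a7 : 0 ≤ s - 7 := by linarith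
      have a8 : 0 ≤ s - 94 / 11 := by linarith
      unfold LIC_p
      exact mul_nonneg (mul_nonneg (mul_nonneg (mul_nonneg (mul_nonneg (mul_nonneg (mul_nonneg a1 a2) a3) a4) a5) a6) a7) a8
  unfold LIC_h at key
  have hm : maj t = -21397 / 10000 + 514935419 / 123493440 * t - 6781386967 / 2074689792 * t ^ 2 +
    13252468423 / 7780086720 * t ^ 3 - 3833665357 / 6915632640 * t ^ 4 +
    1441676441 / 12966811200 * t ^ 5 - 449573 / 33826464 * t ^ 6 + 4741 / 5481140 * t ^ 7 -
    121 / 5145560 * t ^ 8 := by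
    unfold maj
    simp only [Finset.sum_range_succ, Finset.sum_range_zero, co, coL, List.getD_cons_zero,
      List.getD_cons_succ]
    push_cast
    ring
  rw [hm]
  linarith

end Pool.Agent.Lib.MP_33899d_ntN
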