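import Pool.Agent.Lib.MP_33899d_ntN.Defs

/-!
# Parseval's identity for `n`-th roots of unity

Proof of `parseval`: expand `‖z‖ ^ 2 = z * conj z` (`Complex.mul_conj`, `Complex.normSq_eq_norm_sq`),
swap the sums; the inner sum over `k` is `∑ k, r ^ k` with `r = ζ ^ e i * conj (ζ ^ e j)`, `r ^ n = 1`,
which is `n` if `r = 1` and `0` otherwise (`geom_sum_eq` / `mul_neg_geom_sum`), and `r = 1` iff
`ζ ^ e i = ζ ^ e j` (as `‖ζ‖ = 1`) iff `e i ≡ e j [MOD n]` iff `i = j`.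
-/

namespace Pool.Agent.Lib.MP_33899d_ntN

/-- The sum of the powers of an `n`-th root of unity. -/
private theorem parseval_geom {n : ℕ} {r : ℂ} (hr : r ^ n = 1) :
    ∑ k : Fin n, r ^ (k : ℕ) = if r = 1 then (n : ℂ) else 0 := by
  rw [Fin.sum_univ_eq_sum_range (fun k => r ^ k) n]
  split_ifs with h
  · subst h
    simp
  · have h1 := geom_sum_mul r n
    rw [hr, sub_self] at h1
    exact (mul_eq_zero.1 h1).resolve_right (sub_ne_zero.2 h)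

theorem parseval {n : ℕ} (hn : 0 < n) {ζ : ℂ} (hζ : IsPrimitiveRoot ζ n) {m : ℕ}
    (c : Fin m → ℝ) (e : Fin m → ℕ) (he : ∀ i j, e i ≡ e j [MOD n] → i = j) :
    ∑ k : Fin n, ‖∑ i : Fin m, (c i : ℂ) * (ζ ^ (k : ℕ)) ^ (e i)‖ ^ 2 = n * ∑ i, c i ^ 2 := by
  have hz0 : ζ ≠ 0 := hζ.ne_zero hn.ne'
  have hnorm : ‖ζ‖ = 1 := Complex.norm_eq_one_of_pow_eq_one hζ.pow_eq_one hn.ne'
  have hconj : (starRingEnd ℂ) ζ = ζ⁻¹ := by
    rw [Complex.inv_def, Complex.normSq_eq_norm_sq, hnorm]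
    simp
  have hterm : ∀ k : Fin n,
      ((‖∑ i : Fin m, (c i : ℂ) * (ζ ^ (k : ℕ)) ^ (e i)‖ ^ 2 : ℝ) : ℂ) =
        ∑ i : Fin m, ∑ j : Fin m, (c i : ℂ) * (c j : ℂ) *
          (ζ ^ (e i) * (ζ⁻¹) ^ (e j)) ^ (k : ℕ) := by
    intro k
    rw [Complex.ofReal_pow, ← Complex.mul_conj', map_sum, Finset.sum_mul_sum]
    refine Finset.sum_congr rfl fun i _ => Finset.sum_congr rfl fun j _ => ?_
    rw [map_mul, map_pow, map_pow, hconj, Complex.conj_ofReal, mul_pow, ← pow_mul, ← pow_mul,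
      ← pow_mul, ← pow_mul, mul_comm (k : ℕ) (e i), mul_comm (k : ℕ) (e j)]
    ring
  have hr : ∀ i j : Fin m, (ζ ^ (e i) * (ζ⁻¹) ^ (e j)) ^ n = 1 := by
    intro i j
    rw [mul_pow, ← pow_mul, ← pow_mul, mul_comm (e i), mul_comm (e j), pow_mul, pow_mul,
      inv_pow, hζ.pow_eq_one, inv_one, one_pow, one_pow, mul_one]
  have hone : ∀ i j : Fin m, ζ ^ (e i) * (ζ⁻¹) ^ (e j) = 1 ↔ i = j := by
    intro i j
    constructor
    · intro h
      apply he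
      rw [inv_pow, ← div_eq_mul_inv, div_eq_one_iff_eq (pow_ne_zero _ hz0)] at h
      rw [pow_eq_pow_mod (e i) hζ.pow_eq_one, pow_eq_pow_mod (e j) hζ.pow_eq_one] at h
      exact hζ.pow_inj (Nat.mod_lt _ hn) (Nat.mod_lt _ hn) h
    · rintro rfl
      rw [inv_pow, mul_inv_cancel₀ (pow_ne_zero _ hz0)]
  have hC : ((∑ k : Fin n, ‖∑ i : Fin m, (c i : ℂ) * (ζ ^ (k : ℕ)) ^ (e i)‖ ^ 2 : ℝ) : ℂ) =
      ((n * ∑ i, c i ^ 2 : ℝ) : ℂ) := by
    rw [Complex.ofReal_sum]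
    simp_rw [hterm]
    rw [Finset.sum_comm]
    have h1 : ∀ i : Fin m, ∑ k : Fin n, ∑ j : Fin m, (c i : ℂ) * (c j : ℂ) *
        (ζ ^ (e i) * (ζ⁻¹) ^ (e j)) ^ (k : ℕ) = (n : ℂ) * (c i : ℂ) ^ 2 := by
      intro i
      rw [Finset.sum_comm]
      have h2 : ∀ j : Fin m, ∑ k : Fin n, (c i : ℂ) * (c j : ℂ) *
          (ζ ^ (e i) * (ζ⁻¹) ^ (e j)) ^ (k : ℕ) =
            if i = j then (n : ℂ) * (c i : ℂ) ^ 2 else 0 := by
        intro j
        rw [← Finset.mul_sum, parseval_geom (hr i j)]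
        by_cases hij : i = j
        · rw [if_pos ((hone i j).2 hij), if_pos hij, hij]
          ring
        · rw [if_neg fun h => hij ((hone i j).1 h), if_neg hij, mul_zero]
      rw [Finset.sum_congr rfl fun j _ => h2 j, Finset.sum_ite_eq]
      simp
    rw [Finset.sum_congr rfl fun i _ => h1 i, ← Finset.mul_sum]
    push_cast
    rfl
  exact_mod_cast hC

end Pool.Agent.Lib.MP_33899d_ntN
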