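import Pool.Agent.Lib.MP_33899d_ntN.Defs

/-!
# The sequence `S`

* `cubic_zero`: put `h 0 = 2`, `h 1 = -z`, `h (n + 2) = -z h (n + 1) + z⁻¹ h n`
  (`z⁻¹ = -(z ^ 2 + 1)`); then `P n = z ^ n + h n`, `R n = (-z⁻¹) ^ n + z ^ n h n`; for `z ^ n = 1`
  and `n` odd this gives `S n = 2 - (1 + h n) + (-1 + h n) = 0`.
* `three_dvd_S`: the case `K = ZMod 3`, `z = 1`.
* `S_pos`, `S_lt`: inductions.
-/

namespace Pool.Agent.Lib.MP_33899d_ntN

private theorem P_add (n : ℕ) : P (n + 3) = -P (n + 1) - P n := by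
  rw [P]

private theorem R_add (n : ℕ) : R (n + 3) = R (n + 2) + R n := by
  rw [R]

private theorem seq_h {K : Type*} [Field K] {z : K} (hz : z ^ 3 + z + 1 = 0) (n : ℕ) :
    ((P (n + 2) : ℤ) : K) - z ^ (n + 2) + z * (((P (n + 1) : ℤ) : K) - z ^ (n + 1)) +
      (z ^ 2 + 1) * (((P n : ℤ) : K) - z ^ n) = 0 := by
  induction n with
  | zero =>
    simp only [P]
    push_cast
    ring
  | succ n ih =>
    have e : ((P (n + 1 + 2) : ℤ) : K) = -((P (n + 1) : ℤ) : K) - ((P n : ℤ) : K) := by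
      rw [show n + 1 + 2 = n + 3 from rfl, P_add]
      push_cast
      ring
    rw [e]
    rw [show n + 1 + 1 = n + 2 from rfl]
    linear_combination z * ih - ((P n : ℤ) : K) * hz

private theorem seq_R {K : Type*} [Field K] {z : K} (hz : z ^ 3 + z + 1 = 0) (n : ℕ) :
    ((R n : ℤ) : K) = (z ^ 2 + 1) ^ n + z ^ n * (((P n : ℤ) : K) - z ^ n) := by
  induction n using Nat.strong_induction_on with
  | _ n ih =>
    match n, ih with
    | 0, _ =>
      simp only [R, P]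
      push_cast
      ring
    | 1, _ =>
      simp only [R, P]
      push_cast
      ring
    | 2, _ =>
      simp only [R, P]
      push_cast
      ring
    | (m + 3), ih =>
      have h0 := ih m (by omega)
      have h2 := ih (m + 2) (by omega)
      have hh := seq_h hz m
      rw [R_add, P_add]
      push_cast
      rw [h0, h2]
      linear_combination z ^ (m + 2) * hh + (-(z ^ 2 + 1) ^ m * ((z ^ 2 + 1) * z - 1) +
        z ^ m * ((1 - z) * ((P m : ℤ) : K) + (z ^ 3 + z - 1) * z ^ m)) * hz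

theorem cubic_zero {K : Type*} [Field K] {z : K} (hz : z ^ 3 + z + 1 = 0) {n : ℕ} (hn : Odd n)
    (h1 : z ^ n = 1) : ((S n : ℤ) : K) = 0 := by
  have hR := seq_R hz n
  have hq : (z ^ 2 + 1) ^ n = -1 := by
    have e : ((z ^ 2 + 1) * z) ^ n = -1 := by
      have e1 : (z ^ 2 + 1) * z = -1 := by linear_combination hz
      rw [e1, hn.neg_one_pow]
    rw [mul_pow, h1, mul_one] at e
    exact e
  rw [hq, h1] at hR
  simp only [S]
  push_cast
  rw [hR]
  ring

theorem three_dvd_S {n : ℕ} (hn : Odd n) : (3 : ℤ) ∣ S n := by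
  have : Fact (Nat.Prime 3) := ⟨Nat.prime_three⟩
  have h3 : (1 : ZMod 3) ^ 3 + 1 + 1 = 0 := by
    rw [one_pow]
    exact (ZMod.natCast_self 3 ▸ (by norm_num : (1 : ZMod 3) + 1 + 1 = ((3 : ℕ) : ZMod 3)))
  have h := cubic_zero (K := ZMod 3) (z := 1) h3 hn (one_pow n)
  exact (ZMod.intCast_zmod_eq_zero_iff_dvd (S n) 3).mp h

private theorem seq_bd (n : ℕ) : |((P (n + 6) : ℤ) : ℝ)| ≤ (4 / 3) ^ (n + 6) ∧
    (4 / 3 : ℝ) ^ (n + 6) ≤ ((R (n + 6) : ℤ) : ℝ) ∧
    ((R (n + 6) : ℤ) : ℝ) ≤ (3 / 2) ^ (n + 6) := by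
  induction n using Nat.strong_induction_on with
  | _ n ih =>
    match n, ih with
    | 0, _ =>
      have p : P 6 = 1 := by simp [P]
      have r : R 6 = 10 := by simp [R]
      rw [show 0 + 6 = 6 from rfl, p, r]
      refine ⟨?_, ?_, ?_⟩
      · rw [abs_le]; constructor <;> norm_num
      · norm_num
      · norm_num
    | 1, _ =>
      have p : P 7 = -7 := by simp [P]
      have r : R 7 = 15 := by simp [R]
      rw [show 1 + 6 = 7 from rfl, p, r]
      refine ⟨?_, ?_, ?_⟩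
      · rw [abs_le]; constructor <;> norm_num
      · norm_num
      · norm_num
    | 2, _ =>
      have p : P 8 = -6 := by simp [P]
      have r : R 8 = 21 := by simp [R]
      rw [show 2 + 6 = 8 from rfl, p, r]
      refine ⟨?_, ?_, ?_⟩
      · rw [abs_le]; constructor <;> norm_num
      · norm_num
      · norm_num
    | (m + 3), ih =>
      obtain ⟨a0, b0, c0⟩ := ih m (by omega)
      obtain ⟨a1, b1, c1⟩ := ih (m + 1) (by omega)
      obtain ⟨a2, b2, c2⟩ := ih (m + 2) (by omega)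
      have eP : ((P (m + 3 + 6) : ℤ) : ℝ) = -((P (m + 1 + 6) : ℤ) : ℝ) - ((P (m + 6) : ℤ) : ℝ) := by
        rw [show m + 3 + 6 = (m + 6) + 3 from rfl, P_add, show m + 6 + 1 = m + 1 + 6 by omega]
        push_cast
        ring
      have eR : ((R (m + 3 + 6) : ℤ) : ℝ) = ((R (m + 2 + 6) : ℤ) : ℝ) + ((R (m + 6) : ℤ) : ℝ) := by
        rw [show m + 3 + 6 = (m + 6) + 3 from rfl, R_add, show m + 6 + 2 = m + 2 + 6 by omega]
        push_cast
        ring
      have q1 : (4 / 3 : ℝ) ^ (m + 1 + 6) = 4 / 3 * (4 / 3) ^ (m + 6) := by ring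
      have q2 : (4 / 3 : ℝ) ^ (m + 2 + 6) = 16 / 9 * (4 / 3) ^ (m + 6) := by ring
      have q3 : (4 / 3 : ℝ) ^ (m + 3 + 6) = 64 / 27 * (4 / 3) ^ (m + 6) := by ring
      have s2 : (3 / 2 : ℝ) ^ (m + 2 + 6) = 9 / 4 * (3 / 2) ^ (m + 6) := by ring
      have s3 : (3 / 2 : ℝ) ^ (m + 3 + 6) = 27 / 8 * (3 / 2) ^ (m + 6) := by ring
      have hq : (0 : ℝ) < (4 / 3) ^ (m + 6) := by positivity
      have hs : (0 : ℝ) < (3 / 2) ^ (m + 6) := by positivity
      rw [abs_le] at a0 a1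
      refine ⟨?_, ?_, ?_⟩
      · rw [eP, abs_le, q3]
        rw [q1] at a1
        constructor <;> linarith [a0.1, a0.2, a1.1, a1.2]
      · rw [eR, q3]
        rw [q2] at b2
        linarith
      · rw [eR, s3]
        rw [s2] at c2
        linarith

theorem S_pos {n : ℕ} (hn : 3 ≤ n) : 0 < S n := by
  by_cases h : n < 6
  · interval_cases n <;> simp [S, P, R]
  · obtain ⟨m, rfl⟩ : ∃ m, n = m + 6 := ⟨n - 6, by omega⟩
    obtain ⟨a, b, _⟩ := seq_bd m
    rw [abs_le] at a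
    have h2 : (0 : ℝ) < ((S (m + 6) : ℤ) : ℝ) := by
      simp only [S]
      push_cast
      linarith [a.2]
    exact_mod_cast h2

theorem S_lt {n : ℕ} (hn : 2 ≤ n) : (S n : ℝ) < 3 * (3 / 2) ^ n := by
  by_cases h : n < 6
  · interval_cases n
    · have e : S 2 = 5 := by simp [S, P, R]
      rw [e]; norm_num
    · have e : S 3 = 9 := by simp [S, P, R]
      rw [e]; norm_num
    · have e : S 4 = 5 := by simp [S, P, R]
      rw [e]; norm_num
    · have e : S 5 = 3 := by simp [S, P, R]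
      rw [e]; norm_num
  · obtain ⟨m, rfl⟩ : ∃ m, n = m + 6 := ⟨n - 6, by omega⟩
    obtain ⟨a, _, c⟩ := seq_bd m
    rw [abs_le] at a
    have h1 : (4 / 3 : ℝ) ^ (m + 6) ≤ (3 / 2) ^ (m + 6) := by
      exact pow_le_pow_left₀ (by norm_num) (by norm_num) _
    have h2 : (2 : ℝ) < (3 / 2) ^ (m + 6) := by
      have h3 : (1 : ℝ) ≤ (3 / 2) ^ m := one_le_pow₀ (by norm_num)
      have h4 : (3 / 2 : ℝ) ^ (m + 6) = (3 / 2) ^ m * (3 / 2) ^ 6 := pow_add _ _ _
      rw [h4]
      have h5 : (2 : ℝ) < (3 / 2) ^ 6 := by norm_num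
      nlinarith
    simp only [S]
    push_cast
    linarith [a.1]

end Pool.Agent.Lib.MP_33899d_ntN
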